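import Mathlib

/-!
Linear algebra of products of subspaces in a commutative algebra.
-/

namespace Pool.Agent.Lib.MP_b7b517_ag

open Module Submodule

section Abs

variable {Φ : Type*} [CommRing Φ] [Algebra ℂ Φ]

instance fd_mul (M N : Submodule ℂ Φ) [hM : FiniteDimensional ℂ M] [hN : FiniteDimensional ℂ N] :
    FiniteDimensional ℂ (M * N : Submodule ℂ Φ) :=
  Module.Finite.iff_fg.2 ((Module.Finite.iff_fg.1 hM).mul (Module.Finite.iff_fg.1 hN))

instance fd_pow (M : Submodule ℂ Φ) [hM : FiniteDimensional ℂ M] (n : ℕ) :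
    FiniteDimensional ℂ (M ^ n : Submodule ℂ Φ) :=
  Module.Finite.iff_fg.2 ((Module.Finite.iff_fg.1 hM).pow n)

theorem fd_prod {ι : Type*} (s : Finset ι) (M : ι → Submodule ℂ Φ)
    [hM : ∀ i, FiniteDimensional ℂ (M i)] :
    FiniteDimensional ℂ (∏ i ∈ s, M i : Submodule ℂ Φ) := by
  classical
  induction s using Finset.induction_on with
  | empty =>
    rw [Finset.prod_empty, Submodule.one_eq_span]
    infer_instance
  | insert a s ha ih =>
    rw [Finset.prod_insert ha]
    infer_instance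

theorem finrank_mul_le (M N : Submodule ℂ Φ) [FiniteDimensional ℂ M] [FiniteDimensional ℂ N] :
    finrank ℂ (M * N : Submodule ℂ Φ) ≤ finrank ℂ M * finrank ℂ N := by
  rw [← Module.finrank_tensorProduct]
  exact LinearMap.finrank_le_finrank_of_surjective (Submodule.mulMap'_surjective M N)

theorem finrank_le_of_mul {M N : Submodule ℂ Φ} [FiniteDimensional ℂ N] (c : Φ)
    (h1 : ∀ u ∈ M, c * u ∈ N) (h2 : ∀ u ∈ M, c * u = 0 → u = 0) :
    finrank ℂ M ≤ finrank ℂ N := by
  refine LinearMap.finrank_le_finrank_of_injective (f := (LinearMap.mulLeft ℂ c).restrict h1) ?_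
  rw [injective_iff_map_eq_zero]
  exact fun u hu => Subtype.ext (h2 u u.2 (congrArg Subtype.val hu))

theorem finrank_add_le_of_mul {M M' N : Submodule ℂ Φ} [FiniteDimensional ℂ N]
    [FiniteDimensional ℂ M] [FiniteDimensional ℂ M'] (c c' : Φ)
    (h1 : ∀ u ∈ M, c * u ∈ N) (h1' : ∀ u ∈ M', c' * u ∈ N)
    (h2 : ∀ u ∈ M, ∀ u' ∈ M', c * u + c' * u' = 0 → u = 0 ∧ u' = 0) :
    finrank ℂ M + finrank ℂ M' ≤ finrank ℂ N := by
  rw [← Module.finrank_prod]
  refine LinearMap.finrank_le_finrank_of_injective (f := ((LinearMap.mulLeft ℂ c).restrict h1).coprod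
    ((LinearMap.mulLeft ℂ c').restrict h1')) ?_
  rw [injective_iff_map_eq_zero]
  intro u hu
  obtain ⟨h3, h4⟩ := h2 u.1 u.1.2 u.2 u.2.2 (congrArg Subtype.val hu)
  exact Prod.ext (Subtype.ext h3) (Subtype.ext h4)

theorem rank_nullity {A B : Type*} [AddCommGroup A] [Module ℂ A] [AddCommGroup B] [Module ℂ B]
    (f : A →ₗ[ℂ] B) (M : Submodule ℂ A) [FiniteDimensional ℂ M] :
    finrank ℂ (M.map f) + finrank ℂ (M ⊓ LinearMap.ker f : Submodule ℂ A) = finrank ℂ M := by
  rw [← (f.domRestrict M).finrank_range_add_finrank_ker, LinearMap.range_domRestrict,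
    LinearMap.ker_domRestrict, ← Submodule.finrank_map_subtype_eq, Submodule.map_comap_subtype]

theorem sup_pow_le (u v : Φ) (n : ℕ) : (span ℂ {u} ⊔ span ℂ {v}) ^ (n + 1) ≤
    span ℂ {v ^ (n + 1)} ⊔ span ℂ {u} * (span ℂ {u} ⊔ span ℂ {v}) ^ n := by
  induction n with
  | zero => simp [sup_comm]
  | succ n ih =>
    rw [pow_succ]
    refine (mul_le_mul_left ih _).trans ?_
    rw [Submodule.sup_mul, Submodule.mul_sup, mul_assoc, ← pow_succ]
    refine sup_le (sup_le (le_sup_of_le_right ?_) (le_sup_of_le_left ?_)) le_sup_right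
    · rw [mul_comm]
      refine mul_le_mul_right ?_ _
      rw [span_singleton_le_iff_mem]
      exact pow_mem_pow _ (mem_sup_right (mem_span_singleton_self v)) _
    · rw [span_mul_span, Set.singleton_mul_singleton, ← pow_succ]

/-- products of nonzero bihomogeneous elements are nonzero -/
def Dom (L M : Submodule ℂ Φ) : Prop :=
  ∀ a b a' b' : ℕ, ∀ u ∈ L ^ a * M ^ b, ∀ v ∈ L ^ a' * M ^ b', u * v = 0 → u = 0 ∨ v = 0

theorem mem_left {L M : Submodule ℂ Φ} {a : ℕ} {u : Φ} (h : u ∈ L ^ a) : u ∈ L ^ a * M ^ 0 := by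
  simpa using h

theorem mem_right {L M : Submodule ℂ Φ} {b : ℕ} {u : Φ} (h : u ∈ M ^ b) : u ∈ L ^ 0 * M ^ b := by
  simpa using h

theorem mul_mem_bi {L M : Submodule ℂ Φ} {a b a' b' : ℕ} {u v : Φ} (h : u ∈ L ^ a * M ^ b)
    (h' : v ∈ L ^ a' * M ^ b') : u * v ∈ L ^ (a + a') * M ^ (b + b') := by
  have := mul_mem_mul h h'
  rwa [mul_mul_mul_comm, ← pow_add, ← pow_add] at this

/-- nonzero bihomogeneous elements -/
def Dom.nz {L M : Submodule ℂ Φ} (h : Dom L M) [Nontrivial Φ] : Submonoid Φ where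
  carrier := {u | (∃ a b : ℕ, u ∈ L ^ a * M ^ b) ∧ u ≠ 0}
  mul_mem' := by
    rintro u v ⟨⟨a, b, hu⟩, hu0⟩ ⟨⟨a', b', hv⟩, hv0⟩
    exact ⟨⟨_, _, mul_mem_bi hu hv⟩, fun h0 => (h _ _ _ _ u hu v hv h0).elim hu0 hv0⟩
  one_mem' := ⟨⟨0, 0, by
    rw [pow_zero, pow_zero, mul_one, Submodule.one_eq_span]
    exact mem_span_singleton_self _⟩, one_ne_zero⟩

theorem growth {ι : Type*} [Fintype ι] (L : Submodule ℂ Φ) [FiniteDimensional ℂ L] (y : ι → Φ)
    (hd : Dom L (span ℂ (Set.range y))) (j0 : ι) (hy : y j0 ≠ 0) :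
    (∀ a b : ℕ, (b + 1) * finrank ℂ (L ^ a : Submodule ℂ Φ) ≤
      finrank ℂ (L ^ a * span ℂ (Set.range y) ^ b : Submodule ℂ Φ)) ∨
    ∃ δ ρ : ℕ, ∀ a n : ℕ, finrank ℂ (L ^ a * span ℂ (Set.range y) ^ n : Submodule ℂ Φ) ≤
      finrank ℂ (L ^ (a + δ * n) : Submodule ℂ Φ) * ρ := by
  classical
  have : Nontrivial Φ := nontrivial_of_ne _ _ hy
  set M := span ℂ (Set.range y) with hM
  have : FiniteDimensional ℂ M := FiniteDimensional.span_of_finite ℂ (Set.finite_range y)
  let P : ι → Submodule ℂ Φ := fun j => span ℂ {y j0} ⊔ span ℂ {y j}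
  have hyM : ∀ j, y j ∈ M := fun j => subset_span ⟨j, rfl⟩
  have hPM : ∀ j, P j ≤ M := fun j =>
    sup_le ((span_singleton_le_iff_mem _ _).2 (hyM _)) ((span_singleton_le_iff_mem _ _).2 (hyM _))
  have hy0 : y j0 ∈ L ^ 0 * M ^ 1 := mem_right (by simpa using hyM j0)
  by_cases h : ∃ j, ∀ r δ : ℕ, ∀ c ∈ L ^ δ,
      c * y j ^ (r + 1) ∈ L ^ δ * (span ℂ {y j0} * P j ^ r) → c = 0
  · obtain ⟨j, h⟩ := h
    refine Or.inl fun a b => le_trans ?_ (Submodule.finrank_mono
      (mul_le_mul_right (pow_le_pow_left' (hPM j) b) (L ^ a)))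
    induction b with
    | zero => rw [pow_zero, mul_one, zero_add, one_mul]
    | succ b ih =>
      rw [add_mul, one_mul, add_comm]
      refine (Nat.add_le_add_left ih _).trans (finrank_add_le_of_mul (y j ^ (b + 1)) (y j0)
        (fun u hu => ?_) (fun u hu => ?_) fun u hu u' hu' h0 => ?_)
      · rw [mul_comm _ u]
        exact mul_mem_mul hu (pow_mem_pow _ (mem_sup_right (mem_span_singleton_self _)) _)
      · rw [pow_succ', mul_left_comm]
        exact mul_mem_mul (mem_sup_left (mem_span_singleton_self _)) hu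
      · have h1 : u = 0 := by
          refine h b a u hu ?_
          rw [mul_comm u, eq_neg_of_add_eq_zero_left h0, mul_left_comm]
          exact neg_mem (mul_mem_mul (mem_span_singleton_self _) hu')
        rw [h1, mul_zero, zero_add] at h0
        exact ⟨h1, (hd _ _ _ _ _ hy0 _ (mul_le_mul_right (pow_le_pow_left' (hPM j) b) _ hu')
          h0).resolve_left hy⟩
  · push Not at h
    choose r δ c hc1 hc2 hc3 using h
    have key : ∀ j, span ℂ {c j} * span ℂ {y j} * P j ^ r j ≤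
        L ^ δ j * (span ℂ {y j0} * P j ^ r j) := by
      intro j
      have h1 : span ℂ {y j} * P j ^ r j ≤ span ℂ {y j ^ (r j + 1)} ⊔
          span ℂ {y j0} * P j ^ r j := by
        refine le_trans ?_ (sup_pow_le (y j0) (y j) (r j))
        rw [pow_succ']
        exact mul_le_mul_left le_sup_right _
      rw [mul_assoc]
      refine (mul_le_mul_right h1 _).trans ?_
      rw [Submodule.mul_sup]
      refine sup_le ?_ (mul_le_mul_left ((span_singleton_le_iff_mem _ _).2 (hc1 j)) _)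
      rw [span_mul_span, Set.singleton_mul_singleton, span_singleton_le_iff_mem]
      exact hc2 j
    let E : Submodule ℂ Φ := ∏ j, P j ^ r j
    have : FiniteDimensional ℂ E := fd_prod _ _
    have key2 : span ℂ {∏ j, c j} * M * E ≤ L ^ (∑ j, δ j) * span ℂ {y j0} * E := by
      rw [hM, span_range_eq_iSup, mul_iSup, iSup_mul]
      refine iSup_le fun j => ?_
      have h1 : ∏ i ∈ Finset.univ.erase j, span ℂ {c i} ≤ ∏ i ∈ Finset.univ.erase j, L ^ δ i :=
        Finset.prod_le_prod' fun i _ => (span_singleton_le_iff_mem _ _).2 (hc1 i)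
      simp only [E]
      rw [← prod_span_singleton, ← Finset.prod_pow_eq_pow_sum,
        ← Finset.mul_prod_erase _ _ (Finset.mem_univ j),
        ← Finset.mul_prod_erase _ (fun j => P j ^ r j) (Finset.mem_univ j),
        ← Finset.mul_prod_erase _ (fun j => L ^ δ j) (Finset.mem_univ j)]
      calc _ = (span ℂ {c j} * span ℂ {y j} * P j ^ r j) * ((∏ i ∈ Finset.univ.erase j,
            span ℂ {c i}) * ∏ i ∈ Finset.univ.erase j, P i ^ r i) := by ring
        _ ≤ (L ^ δ j * (span ℂ {y j0} * P j ^ r j)) * ((∏ i ∈ Finset.univ.erase j,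
            L ^ δ i) * ∏ i ∈ Finset.univ.erase j, P i ^ r i) :=
          mul_le_mul' (key j) (mul_le_mul_left h1 _)
        _ = _ := by ring
    have key3 : ∀ n, (span ℂ {∏ j, c j} * M) ^ n * E ≤
        (L ^ (∑ j, δ j) * span ℂ {y j0}) ^ n * E := by
      intro n
      induction n with
      | zero => simp
      | succ n ih =>
        rw [pow_succ, mul_assoc]
        refine (mul_le_mul_right key2 _).trans ?_
        rw [mul_left_comm, pow_succ', mul_assoc _ _ E]
        exact mul_le_mul_right ih _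
    refine Or.inr ⟨∑ j, δ j, finrank ℂ E, fun a n => ?_⟩
    have he : ∏ j, y j0 ^ r j ∈ E := by
      rw [← span_singleton_le_iff_mem, ← prod_span_singleton]
      exact Finset.prod_le_prod' fun i _ => (span_singleton_le_iff_mem _ _).2
        (pow_mem_pow _ (mem_sup_left (mem_span_singleton_self _)) _)
    have hnz : (∏ j, c j) ^ n * ∏ j, y j0 ^ r j ∈ hd.nz :=
      mul_mem (pow_mem (prod_mem fun j _ =>
        show c j ∈ hd.nz from ⟨⟨_, _, mem_left (hc1 j)⟩, hc3 j⟩) n)
        (prod_mem fun j _ => pow_mem (show y j0 ∈ hd.nz from ⟨⟨_, _, hy0⟩, hy⟩) _)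
    obtain ⟨⟨a', b', h1⟩, h2⟩ := hnz
    refine (finrank_le_of_mul (N := L ^ (a + (∑ j, δ j) * n) * (span ℂ {y j0 ^ n} * E))
      ((∏ j, c j) ^ n * ∏ j, y j0 ^ r j) (fun u hu => ?_)
      fun u hu h0 => (hd _ _ _ _ _ h1 _ hu h0).resolve_left h2).trans ?_
    · have h3 := mul_mem_mul (mul_mem_mul (pow_mem_pow _ (mem_span_singleton_self (R := ℂ)
        (∏ j, c j)) n) he) hu
      have h4 : span ℂ {∏ j, c j} ^ n * E * (L ^ a * M ^ n) =
          L ^ a * ((span ℂ {∏ j, c j} * M) ^ n * E) := by ring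
      have h5 : L ^ (a + (∑ j, δ j) * n) * (span ℂ {y j0 ^ n} * E) =
          L ^ a * ((L ^ (∑ j, δ j) * span ℂ {y j0}) ^ n * E) := by
        rw [← Set.singleton_pow, ← span_pow]
        ring
      rw [h5]
      exact mul_le_mul_right (key3 n) _ (h4 ▸ h3)
    · refine (finrank_mul_le _ _).trans (Nat.mul_le_mul_left _ ((finrank_mul_le _ _).trans ?_))
      have : finrank ℂ (span ℂ {y j0 ^ n}) ≤ 1 := by
        simpa using finrank_span_le_card (R := ℂ) ({y j0 ^ n} : Set Φ)
      nlinarith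

end Abs

end Pool.Agent.Lib.MP_b7b517_ag
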