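import Mathlib

/-!
Three-dimensional cycles on the product of the complex projective plane and projective space,
their numerical classes and their mobility counts.
-/

namespace Pool.Agent.Lib.MP_b7b517_ag

open MvPolynomial Filter
open scoped ENNReal Nat

/-- The points of `P² × P³` over `ℂ`. -/
abbrev PP : Type := Projectivization ℂ (Fin 3 → ℂ) × Projectivization ℂ (Fin 4 → ℂ)

/-- Bihomogeneous forms of bidegree `(a, b)`. -/
def forms (a b : ℕ) : Submodule ℂ (MvPolynomial (Fin 3 ⊕ Fin 4) ℂ) :=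
  weightedHomogeneousSubmodule ℂ (Sum.elim (fun _ => ((1, 0) : ℕ × ℕ)) fun _ => (0, 1)) (a, b)

/-- The Zariski topology, generated by the nonvanishing loci of bihomogeneous forms. -/
def zariski : TopologicalSpace PP :=
  .generateFrom {U | ∃ a b, ∃ F ∈ forms a b, U = {x | eval (Sum.elim x.1.rep x.2.rep) F ≠ 0}}

/-- The bigraded Hilbert function of `V`: the dimension of the space of forms of bidegree `(a, b)`
modulo those vanishing on `V`. -/
noncomputable def hilb (V : Set PP) (a b : ℕ) : ℕ :=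
  Module.finrank ℂ ((forms a b).map
    (aeval fun i (v : V) => Sum.elim v.1.1.rep v.1.2.rep i).toLinearMap)

/-- `V` is an irreducible closed subset of dimension three with intersection numbers
`e i = V · H₁ ^ i · H₂ ^ (3 - i)`: its Hilbert polynomial has degree three, with top part
`∑ e i * a ^ i * b ^ (3 - i) / (i! (3 - i)!)`. -/
def IsThreefold (V : Set PP) (e : Fin 4 → ℤ) : Prop :=
  @IsClosed PP zariski V ∧ @IsIrreducible PP zariski V ∧ e ≠ 0 ∧
    ∃ q : MvPolynomial (Fin 2) ℚ, q.totalDegree ≤ 2 ∧ ∀ᶠ n : ℕ × ℕ in atTop,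
      (hilb V n.1 n.2 : ℚ) = ∑ i : Fin 4, (e i : ℚ) * (n.1 : ℚ) ^ (i : ℕ) * (n.2 : ℚ) ^ (3 - i : ℕ) /
        ((i : ℕ)! * (3 - i : ℕ)!) + eval ![(n.1 : ℚ), (n.2 : ℚ)] q

/-- The set `S` lies on an effective 3-cycle whose numerical class has intersection numbers `e`. -/
def OnCycle (e : Fin 4 → ℤ) (S : Set PP) : Prop :=
  ∃ (n : ℕ) (V : Fin n → Set PP) (d : Fin n → Fin 4 → ℤ),
    (∀ l, IsThreefold (V l) (d l)) ∧ ∑ l, d l = e ∧ S ⊆ ⋃ l, V l

/-- The mobility count: the supremum of all `b` such that `b` general points lie on an effective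
cycle of class `e`. -/
noncomputable def mc (e : Fin 4 → ℤ) : ℝ≥0∞ :=
  ⨆ (b : ℕ) (_ : ∃ P : MvPolynomial (Fin b × (Fin 3 ⊕ Fin 4)) ℂ, P ≠ 0 ∧
    ∀ (u : Fin b → Fin 3 → ℂ) (v : Fin b → Fin 4 → ℂ) (hu : ∀ j, u j ≠ 0) (hv : ∀ j, v j ≠ 0),
      eval (fun s => Sum.elim (u s.1) (v s.1) s.2) P ≠ 0 → OnCycle e (Set.range fun j =>
        (Projectivization.mk ℂ (u j) (hu j), Projectivization.mk ℂ (v j) (hv j)))), (b : ℝ≥0∞)

end Pool.Agent.Lib.MP_b7b517_ag
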