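import Pool.Agent.Lib.MP_b7b517_ag.Alg

/-!
Homogeneous polynomials: dimension, factors, hypersurfaces, general points.
-/

namespace Pool.Agent.Lib.MP_b7b517_ag

open Module MvPolynomial

section Hom

variable {σ : Type} [Fintype σ]

instance fd_hom (n : ℕ) : FiniteDimensional ℂ (homogeneousSubmodule σ ℂ n) :=
  Module.Finite.iff_fg.2 (homogeneousSubmodule_fg σ ℂ n)

theorem finrank_hom (n : ℕ) :
    finrank ℂ (homogeneousSubmodule σ ℂ n) = (Fintype.card σ + n - 1).choose n := by
  classical
  have h : homogeneousSubmodule σ ℂ n =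
      restrictSupport ℂ ((Finset.univ.finsuppAntidiag n : Finset (σ →₀ ℕ)) : Set (σ →₀ ℕ)) := by
    ext p
    rw [mem_homogeneousSubmodule, mem_restrictSupport_iff]
    constructor
    · intro h d hd
      have := h.degree_eq_sum_deg_support hd
      simp only [Finset.mem_coe, Finset.mem_finsuppAntidiag, Finset.subset_univ, and_true]
      rw [this]
      exact (Finset.sum_subset (Finset.subset_univ _) fun x _ hx => by simpa using hx).symm
    · intro h d hd
      have := h (Finset.mem_coe.2 (mem_support_iff.2 hd))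
      simp only [Finset.mem_coe, Finset.mem_finsuppAntidiag, Finset.subset_univ, and_true] at this
      rw [← this, Finsupp.weight_apply, Finsupp.sum_fintype _ _ (by simp)]
      simp
  rw [h, finrank_eq_card_basis (basisRestrictSupport ℂ _)]
  simp [Finset.card_finsuppAntidiag_nat_eq_choose]

omit [Fintype σ] in
theorem map_hom {Φ : Type*} [CommRing Φ] [Algebra ℂ Φ] (x : σ → Φ) (n : ℕ) :
    (homogeneousSubmodule σ ℂ n).map (aeval x).toLinearMap = Submodule.span ℂ (Set.range x) ^ n := by
  rw [← homogeneousSubmodule_one_pow, Submodule.map_pow, homogeneousSubmodule_one_eq_span_X,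
    Submodule.map_span, ← Set.range_comp]
  congr 3
  funext i
  simp

omit [Fintype σ] in
theorem hom_eval_smul {f : MvPolynomial σ ℂ} {n : ℕ} (hf : f.IsHomogeneous n) (c : ℂ)
    (v : σ → ℂ) : eval (c • v) f = c ^ n * eval v f := by
  rw [eval_eq, eval_eq, Finset.mul_sum]
  refine Finset.sum_congr rfl fun d hd => ?_
  rw [hf.degree_eq_sum_deg_support hd, ← Finset.prod_pow_eq_pow_sum, mul_left_comm,
    ← Finset.prod_mul_distrib]
  simp [mul_pow]

omit [Fintype σ] in
theorem hom_of_mul {g h : MvPolynomial σ ℂ} {n : ℕ} (H : (g * h).IsHomogeneous n)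
    (h0 : g * h ≠ 0) : ∃ k, g.IsHomogeneous k := by
  let θ : MvPolynomial σ ℂ →ₐ[ℂ] Polynomial (MvPolynomial σ ℂ) :=
    aeval fun i => Polynomial.monomial 1 (X i)
  have h1 : ∀ (p : MvPolynomial σ ℂ) k, p.IsHomogeneous k → θ p = Polynomial.monomial k p := by
    intro p k hp
    have : p ∈ homogeneousSubmodule σ ℂ k := hp
    rw [← homogeneousSubmodule_one_pow, homogeneousSubmodule_one_eq_span_X] at this
    clear hp
    induction this using Submodule.pow_induction_on_left' with
    | algebraMap r => simp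
    | add x y i _ _ hx hy => rw [map_add, map_add, hx, hy]
    | mem_mul m hm i x _ hx =>
      have : θ m = Polynomial.monomial 1 m := by
        induction hm using Submodule.span_induction with
        | mem _ h =>
          obtain ⟨i, rfl⟩ := h
          simp [θ]
        | zero => simp
        | add _ _ _ _ h h' => rw [map_add, map_add, h, h']
        | smul a _ _ h => rw [map_smul, h, Polynomial.smul_monomial]
      rw [map_mul, this, hx, Polynomial.monomial_mul_monomial, add_comm]
  have h2 : ∀ (p : MvPolynomial σ ℂ) k, (θ p).coeff k = homogeneousComponent k p := by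
    intro p k
    conv_lhs => rw [← sum_homogeneousComponent p]
    rw [map_sum, Polynomial.finsetSum_coeff]
    simp only [h1 _ _ (homogeneousComponent_isHomogeneous _ _), Polynomial.coeff_monomial]
    rw [Finset.sum_ite_eq']
    split_ifs with hk
    · rfl
    · exact (homogeneousComponent_eq_zero _ _ (by simpa using hk)).symm
  have h3 : θ g * θ h = Polynomial.monomial n (g * h) := by rw [← map_mul, h1 _ _ H]
  have h4 : θ g * θ h ≠ 0 := by rw [h3]; simpa using h0
  have h5 := Polynomial.natDegree_mul (left_ne_zero_of_mul h4) (right_ne_zero_of_mul h4)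
  have h6 := Polynomial.natTrailingDegree_mul (left_ne_zero_of_mul h4) (right_ne_zero_of_mul h4)
  rw [h3, Polynomial.natDegree_monomial_eq _ h0] at h5
  rw [h3, Polynomial.natTrailingDegree_monomial h0] at h6
  have h7 := Polynomial.natTrailingDegree_le_natDegree (θ g)
  have h8 := Polynomial.natTrailingDegree_le_natDegree (θ h)
  refine ⟨(θ g).natDegree, ?_⟩
  have h9 : g.IsHomogeneous (θ g).natDegree ↔ (∑ i ∈ Finset.range (g.totalDegree + 1),
      homogeneousComponent i g).IsHomogeneous (θ g).natDegree := by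
    rw [sum_homogeneousComponent]
  refine h9.2 (IsHomogeneous.sum _ _ _ fun i _ => ?_)
  rcases lt_trichotomy i (θ g).natDegree with h | h | h
  · rw [← h2, Polynomial.coeff_eq_zero_of_lt_natTrailingDegree (by omega)]
    exact isHomogeneous_zero _ _ _
  · rw [← h]
    exact homogeneousComponent_isHomogeneous _ _
  · rw [← h2, Polynomial.coeff_eq_zero_of_natDegree_lt h]
    exact isHomogeneous_zero _ _ _

omit [Fintype σ] in
theorem hom_zero_eval {f : MvPolynomial σ ℂ} (hf : f.IsHomogeneous 0) (h0 : f ≠ 0) (v : σ → ℂ) :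
    eval v f ≠ 0 := by
  have h1 := (totalDegree_eq_zero_iff_eq_C).1 (hf.totalDegree h0)
  rw [h1] at h0 ⊢
  simpa using h0

omit [Fintype σ] in
/-- factorisation into irreducible forms -/
theorem exists_factors {f : MvPolynomial σ ℂ} {n : ℕ} (hf : f.IsHomogeneous n) (h0 : f ≠ 0) :
    ∃ (k : ℕ) (g : Fin k → MvPolynomial σ ℂ) (d : Fin k → ℕ),
      (∀ i, Irreducible (g i) ∧ (g i).IsHomogeneous (d i)) ∧ ∑ i, d i = n ∧
        ∃ c, c.IsHomogeneous 0 ∧ c ≠ 0 ∧ f = c * ∏ i, g i := by
  induction f using WfDvdMonoid.induction_on_irreducible generalizing n with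
  | zero => exact (h0 rfl).elim
  | unit u hu =>
    obtain ⟨w, hw⟩ := hu.exists_right_inv
    obtain ⟨k, hk⟩ := hom_of_mul (g := w) (h := u) (n := 0)
      (by rw [mul_comm, hw]; exact isHomogeneous_one _ _) (by rw [mul_comm, hw]; exact one_ne_zero)
    have h1 := (hf.mul hk).inj_right (by rw [hw]; exact isHomogeneous_one _ _)
      (by rw [hw]; exact one_ne_zero)
    obtain rfl : n = 0 := by omega
    exact ⟨0, Fin.elim0, Fin.elim0, fun i => i.elim0, by simp, u, hf, h0, by simp⟩
  | mul a p ha hp ih =>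
    obtain ⟨k, hk⟩ := hom_of_mul hf h0
    obtain ⟨l, hl⟩ := hom_of_mul (mul_comm p a ▸ hf) (mul_comm p a ▸ h0)
    obtain ⟨m, g, d, h1, h2, c, h3, h4, h5⟩ := ih hl ha
    refine ⟨m + 1, Fin.cons p g, Fin.cons k d, fun i => ?_, ?_, c, h3, h4, ?_⟩
    · refine Fin.cases ?_ (fun i => ?_) i
      · exact ⟨hp, hk⟩
      · exact h1 i
    · rw [Fin.sum_cons, h2]
      exact (hk.mul hl).inj_right hf h0
    · rw [Fin.prod_cons, h5]
      ring

omit [Fintype σ] in
theorem irr_pos {f : MvPolynomial σ ℂ} {n : ℕ} (hi : Irreducible f) (hf : f.IsHomogeneous n) :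
    1 ≤ n := by
  by_contra h
  obtain rfl : n = 0 := by omega
  have h1 := (totalDegree_eq_zero_iff_eq_C).1 (hf.totalDegree hi.ne_zero)
  refine hi.not_isUnit (h1 ▸ (IsUnit.mk0 _ fun h2 => hi.ne_zero ?_).map C)
  rw [h1, h2, map_zero]

/-- Nullstellensatz for an irreducible form -/
theorem dvd_of_vanish {f u : MvPolynomial σ ℂ} (hi : Irreducible f)
    (h : ∀ v, eval v f = 0 → eval v u = 0) : f ∣ u := by
  have h1 : (Ideal.span {f}).IsPrime := (Ideal.span_singleton_prime hi.ne_zero).2 hi.prime
  rw [← Ideal.mem_span_singleton, ← h1.radical, ← vanishingIdeal_zeroLocus_eq_radical (K := ℂ)]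
  intro v hv
  exact h v (hv f (Ideal.mem_span_singleton_self f))

/-- the hypersurface of a form -/
def hyp (f : MvPolynomial σ ℂ) : Set (Projectivization ℂ (σ → ℂ)) := {x | eval x.rep f = 0}

omit [Fintype σ] in
theorem eval_mk {f : MvPolynomial σ ℂ} {n : ℕ} (hf : f.IsHomogeneous n) {v : σ → ℂ} (hv : v ≠ 0) :
    eval (Projectivization.mk ℂ v hv).rep f = 0 ↔ eval v f = 0 := by
  obtain ⟨a, ha⟩ := Projectivization.exists_smul_eq_mk_rep ℂ v hv
  rw [← ha, Units.smul_def, hom_eval_smul hf]
  simp

theorem dvd_of_hyp {f u : MvPolynomial σ ℂ} {n a : ℕ} (hi : Irreducible f) (hf : f.IsHomogeneous n)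
    (hu : u.IsHomogeneous a) (h2 : ∃ i, ¬ f ∣ X i) (h : ∀ x ∈ hyp f, eval x.rep u = 0) :
    f ∣ u := by
  obtain ⟨i, h2⟩ := h2
  refine (hi.prime.dvd_or_dvd (dvd_of_vanish (u := X i * u) hi fun v hv => ?_)).resolve_left h2
  by_cases h0 : v = 0
  · simp [h0]
  · rw [map_mul, (eval_mk hu h0).1 (h _ ((eval_mk hf h0).2 hv)), mul_zero]

omit [Fintype σ] in
theorem exists_not_dvd [Nontrivial σ] {f : MvPolynomial σ ℂ} (hi : Irreducible f) :
    ∃ i, ¬ f ∣ X i := by
  obtain ⟨i, j, hij⟩ := exists_pair_ne σ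
  by_contra h
  push Not at h
  have h1 := (hi.associated_of_dvd (X_prime (i := i)).irreducible (h i)).symm.dvd.trans (h j)
  exact hij (X_dvd_X.1 h1)

/-- coordinate functions on a set of points -/
noncomputable def crd (Z : Set (Projectivization ℂ (σ → ℂ))) (i : σ) : Z → ℂ := fun z => z.1.rep i

omit [Fintype σ] in
theorem aeval_fun {V : Type*} (x : σ → V → ℂ) (f : MvPolynomial σ ℂ) (v : V) :
    aeval x f v = eval (fun i => x i v) f := by
  induction f using MvPolynomial.induction_on with
  | C a => simp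
  | add p q hp hq => simp [hp, hq]
  | mul_X p i hp => simp [hp]

/-- Hilbert function of a hypersurface -/
theorem finrank_hyp [Nontrivial σ] {f : MvPolynomial σ ℂ} {n : ℕ} (hi : Irreducible f)
    (hf : f.IsHomogeneous n) (a : ℕ) :
    finrank ℂ (Submodule.span ℂ (Set.range (crd (hyp f))) ^ (n + a) : Submodule ℂ _) +
      finrank ℂ (homogeneousSubmodule σ ℂ a) = finrank ℂ (homogeneousSubmodule σ ℂ (n + a)) := by
  rw [← map_hom, ← rank_nullity (aeval (crd (hyp f))).toLinearMap (homogeneousSubmodule σ ℂ (n + a))]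
  congr 1
  have h1 : homogeneousSubmodule σ ℂ (n + a) ⊓ LinearMap.ker (aeval (crd (hyp f))).toLinearMap =
      (homogeneousSubmodule σ ℂ a).map (LinearMap.mulLeft ℂ f) := by
    ext u
    constructor
    · rintro ⟨h1, h2⟩
      have h1 : u.IsHomogeneous (n + a) := h1
      have h2 : aeval (crd (hyp f)) u = 0 := h2
      obtain ⟨w, rfl⟩ := dvd_of_hyp hi hf h1 (exists_not_dvd hi) fun x hx =>
        (aeval_fun (crd (hyp f)) u ⟨x, hx⟩).symm.trans (congrFun h2 ⟨x, hx⟩)
      by_cases h0 : f * w = 0
      · rw [h0]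
        exact zero_mem _
      · obtain ⟨k, hk⟩ := hom_of_mul (mul_comm f w ▸ h1) (mul_comm f w ▸ h0)
        have := (hf.mul hk).inj_right h1 h0
        obtain rfl : k = a := by omega
        exact ⟨w, hk, rfl⟩
    · rintro ⟨w, hw, rfl⟩
      refine ⟨hf.mul hw, funext fun x => ?_⟩
      have : eval (fun i => crd (hyp f) i x) f = 0 := x.2
      simp [aeval_fun, this]
  rw [h1]
  exact (LinearEquiv.finrank_eq (Submodule.equivMapOfInjective _
    (fun _ _ h => mul_left_cancel₀ hi.ne_zero h) _))

theorem hyp_prime [Nontrivial σ] {f u w : MvPolynomial σ ℂ} {n a b : ℕ} (hi : Irreducible f)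
    (hf : f.IsHomogeneous n) (hu : u.IsHomogeneous a) (hw : w.IsHomogeneous b)
    (h : ∀ x ∈ hyp f, eval x.rep u = 0 ∨ eval x.rep w = 0) :
    (∀ x ∈ hyp f, eval x.rep u = 0) ∨ ∀ x ∈ hyp f, eval x.rep w = 0 := by
  have h1 := dvd_of_hyp hi hf (hu.mul hw) (exists_not_dvd hi) fun x hx => by
    simpa using h x hx
  refine (hi.prime.dvd_or_dvd h1).imp ?_ ?_
  all_goals
    rintro ⟨c, rfl⟩ x hx
    rw [map_mul, show eval x.rep f = 0 from hx, zero_mul]

theorem hyp_nonempty [Nontrivial σ] {f : MvPolynomial σ ℂ} {n : ℕ} (hi : Irreducible f)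
    (hf : f.IsHomogeneous n) : (hyp f).Nonempty := by
  by_contra h
  exact hi.not_isUnit (isUnit_of_dvd_one (dvd_of_hyp hi hf (isHomogeneous_one _ _)
    (exists_not_dvd hi) fun x hx => (h ⟨x, hx⟩).elim))

/-- a form of degree `n` through few points -/
theorem exists_form {ι : Type} [Fintype ι] (v : ι → σ → ℂ) (n : ℕ)
    (h : Fintype.card ι < (Fintype.card σ + n - 1).choose n) :
    ∃ f : MvPolynomial σ ℂ, f.IsHomogeneous n ∧ f ≠ 0 ∧ ∀ j, eval (v j) f = 0 := by
  have h1 := rank_nullity (aeval fun i j => v j i).toLinearMap (homogeneousSubmodule σ ℂ n)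
  have h2 := Submodule.finrank_le
    ((homogeneousSubmodule σ ℂ n).map (aeval fun i j => v j i).toLinearMap)
  rw [finrank_hom] at h1
  rw [finrank_pi] at h2
  obtain ⟨f, hf, h0⟩ := Submodule.exists_mem_ne_zero_of_ne_bot
    (p := homogeneousSubmodule σ ℂ n ⊓ LinearMap.ker (aeval fun i j => v j i).toLinearMap)
    (fun h3 => by rw [h3, finrank_bot] at h1; omega)
  have h4 : aeval (fun i j => v j i) f = 0 := hf.2
  exact ⟨f, hf.1, h0, fun j => (aeval_fun (fun i j => v j i) f j).symm.trans (congrFun h4 j)⟩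

end Hom

section Gen

/-- complements of hypersurfaces generate the filter of general points -/
def gen (ι : Type) : Filter (ι → ℂ) where
  sets := {S | ∃ P : MvPolynomial ι ℂ, P ≠ 0 ∧ ∀ v, eval v P ≠ 0 → v ∈ S}
  univ_sets := ⟨1, one_ne_zero, fun _ _ => trivial⟩
  sets_of_superset := fun ⟨P, h1, h2⟩ h => ⟨P, h1, fun v hv => h (h2 v hv)⟩
  inter_sets := fun ⟨P, h1, h2⟩ ⟨Q, h3, h4⟩ => ⟨P * Q, mul_ne_zero h1 h3, fun v hv => by
    rw [map_mul] at hv
    exact ⟨h2 v (left_ne_zero_of_mul hv), h4 v (right_ne_zero_of_mul hv)⟩⟩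

instance gen_neBot (ι : Type) : (gen ι).NeBot := by
  refine Filter.forall_mem_nonempty_iff_neBot.1 ?_
  rintro S ⟨P, h1, h2⟩
  by_contra h
  refine h1 (MvPolynomial.funext fun v => ?_)
  by_contra h3
  exact h ⟨v, h2 v (by simpa using h3)⟩

/-- general points impose independent conditions -/
theorem gen_indep {σ ι τ : Type} [Fintype σ] (n : ℕ) (T : Finset ι) (π : σ → τ)
    (hπ : Function.Injective π) (h : (Fintype.card σ + n - 1).choose n ≤ T.card) :
    ∀ᶠ v in gen (ι × τ), ∀ f : MvPolynomial σ ℂ, f.IsHomogeneous n →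
      (∀ j ∈ T, eval (fun i => v (j, π i)) f = 0) → f = 0 := by
  classical
  let N := finrank ℂ (homogeneousSubmodule σ ℂ n)
  let B := Module.finBasis ℂ (homogeneousSubmodule σ ℂ n)
  obtain ⟨e, he1, he2⟩ : ∃ e : Fin N → ι, Function.Injective e ∧ ∀ k, e k ∈ T := by
    obtain ⟨e⟩ : Nonempty (Fin N ↪ T) :=
      Function.Embedding.nonempty_of_card_le (by simpa [N, finrank_hom] using h)
    exact ⟨fun k => e k, Subtype.val_injective.comp e.injective, fun k => (e k).2⟩
  let ev : (σ → ℂ) → Fin N → ℂ := fun w l => eval w (B l).1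
  have hsp : Submodule.span ℂ (Set.range ev) = ⊤ := by
    by_contra h1
    obtain ⟨φ, h2, h3⟩ := Submodule.exists_le_ker_of_lt_top _ (lt_top_iff_ne_top.2 h1)
    have h4 : ∑ l, φ (Pi.single l 1) • B l = 0 := by
      refine Subtype.ext (MvPolynomial.funext fun w => ?_)
      have h5 : φ (ev w) = 0 := h3 (Submodule.subset_span ⟨w, rfl⟩)
      rw [LinearMap.pi_apply_eq_sum_univ] at h5
      simp only [AddSubmonoidClass.coe_finsetSum, SetLike.val_smul, map_sum, smul_eval,
        ZeroMemClass.coe_zero, map_zero]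
      rw [← h5]
      refine Finset.sum_congr rfl fun l _ => ?_
      rw [smul_eq_mul, mul_comm]
      congr 2
      funext j
      simp [Pi.single_apply, eq_comm]
    have h5 := Fintype.linearIndependent_iff.1 B.linearIndependent _ h4
    exact h2 (LinearMap.pi_ext' fun l => LinearMap.ext_ring (by simpa using h5 l))
  obtain ⟨w, hw1, -, hw3⟩ := Submodule.exists_fun_fin_finrank_span_eq ℂ (Set.range ev)
  have hN : finrank ℂ (Submodule.span ℂ (Set.range ev)) = N := by rw [hsp]; simp
  choose p hp using hw1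
  have hdet : (Matrix.of fun k l => ev (p (Fin.cast hN.symm k)) l).det ≠ 0 := by
    have : LinearIndependent ℂ (Matrix.of fun k l => ev (p (Fin.cast hN.symm k)) l).row := by
      have h1 := hw3.comp (Fin.cast hN.symm) (Fin.cast_injective _)
      have h2 : (Matrix.of fun k l => ev (p (Fin.cast hN.symm k)) l).row =
          w ∘ Fin.cast hN.symm := by
        funext k l
        simp [hp]
      rw [h2]
      exact h1
    rw [Matrix.linearIndependent_rows_iff_isUnit, Matrix.isUnit_iff_isUnit_det] at this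
    exact this.ne_zero
  have hQ : ∀ v : ι × τ → ℂ, eval v (Matrix.of fun k l =>
      rename (fun i => (e k, π i)) (B l).1).det =
        (Matrix.of fun k l => ev (fun i => v (e k, π i)) l).det := by
    intro v
    rw [RingHom.map_det]
    congr 1
    ext k l
    simp [ev, eval_rename, Function.comp_def]
  refine ⟨(Matrix.of fun k l => rename (fun i => (e k, π i)) (B l).1).det, fun h0 => hdet ?_,
    fun v hv f hf h1 => ?_⟩
  · have := hQ fun s => Function.extend e (fun k => Function.extend π (p (Fin.cast hN.symm k)) 0)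
      0 s.1 s.2
    rw [h0, map_zero] at this
    simp only [he1.extend_apply, hπ.extend_apply] at this
    exact this.symm
  · rw [hQ] at hv
    have h2 := B.sum_repr ⟨f, hf⟩
    have h3 : B.repr ⟨f, hf⟩ = 0 := by
      have := Matrix.eq_zero_of_mulVec_eq_zero hv (v := B.repr ⟨f, hf⟩) (funext fun k => by
        have h4 := h1 _ (he2 k)
        have h5 : ∑ i, B.repr ⟨f, hf⟩ i • (B i).1 = f := by
          simpa only [AddSubmonoidClass.coe_finsetSum, SetLike.val_smul] using
            congrArg Subtype.val h2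
        have h6 := (congrArg (eval fun i => v (e k, π i)) h5).trans h4
        simp only [map_sum, smul_eval] at h6
        simpa [Matrix.mulVec, dotProduct, ev, mul_comm] using h6)
      exact DFunLike.coe_injective this
    exact congrArg Subtype.val (B.repr.map_eq_zero_iff.1 h3)

end Gen

end Pool.Agent.Lib.MP_b7b517_ag
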