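import Pool.Agent.Lib.MP_b7b517_ag.Defs
import Pool.Agent.Lib.MP_b7b517_ag.Poly

/-!
Forms, the Zariski topology and products of hypersurfaces.
-/

namespace Pool.Agent.Lib.MP_b7b517_ag

open Module MvPolynomial Filter

/-- span of the first group of variables -/
noncomputable def LX : Submodule ℂ (MvPolynomial (Fin 3 ⊕ Fin 4) ℂ) :=
  Submodule.span ℂ (Set.range fun i => X (Sum.inl i))

/-- span of the second group of variables -/
noncomputable def LY : Submodule ℂ (MvPolynomial (Fin 3 ⊕ Fin 4) ℂ) :=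
  Submodule.span ℂ (Set.range fun i => X (Sum.inr i))

theorem forms_mul {a b a' b' : ℕ} {F G : MvPolynomial (Fin 3 ⊕ Fin 4) ℂ} (hF : F ∈ forms a b)
    (hG : G ∈ forms a' b') : F * G ∈ forms (a + a') (b + b') :=
  IsWeightedHomogeneous.mul hF hG

theorem forms_eq (a b : ℕ) : forms a b = LX ^ a * LY ^ b := by
  apply le_antisymm
  · intro F hF
    replace hF : IsWeightedHomogeneous _ F (a, b) := hF
    induction hF using IsWeightedHomogeneous.induction_on with
    | zero => exact zero_mem _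
    | add _ _ _ _ h h' => exact add_mem h h'
    | monomial d r hr =>
      rw [Finsupp.weight_apply, Finsupp.sum_fintype _ _ (by simp), Fintype.sum_sum_type] at hr
      have h1 := congrArg Prod.fst hr
      have h2 := congrArg Prod.snd hr
      simp only [Sum.elim_inl, Prod.smul_mk, smul_eq_mul, mul_one, mul_zero, Sum.elim_inr,
        Prod.fst_add, Prod.fst_sum, Finset.sum_const_zero, add_zero, Prod.snd_add, Prod.snd_sum,
        zero_add] at h1 h2
      rw [monomial_eq, Finsupp.prod_fintype _ _ (by simp), Fintype.prod_sum_type, ← h1, ← h2,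
        ← smul_eq_C_mul, ← Finset.prod_pow_eq_pow_sum, ← Finset.prod_pow_eq_pow_sum]
      refine Submodule.smul_mem _ _ (Submodule.mul_mem_mul ?_ ?_)
      all_goals
        rw [← Submodule.span_singleton_le_iff_mem, ← Submodule.prod_span_singleton]
        exact Finset.prod_le_prod' fun i _ => (Submodule.span_singleton_le_iff_mem _ _).2
          (Submodule.pow_mem_pow _ (Submodule.subset_span (Set.mem_range_self i)) _)
  · have h0 : (1 : Submodule ℂ (MvPolynomial (Fin 3 ⊕ Fin 4) ℂ)) ≤ forms 0 0 :=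
      Submodule.one_le.2 (isWeightedHomogeneous_one ℂ _)
    have h1 : ∀ a, LX ^ a ≤ forms a 0 := by
      intro a
      induction a with
      | zero => simpa using h0
      | succ a ih =>
        rw [pow_succ]
        refine Submodule.mul_le.2 fun u hu v hv => forms_mul (ih hu) (a' := 1) (b' := 0) ?_
        refine Submodule.span_le.2 ?_ hv
        rintro _ ⟨i, rfl⟩
        exact isWeightedHomogeneous_X ℂ _ _
    have h2 : ∀ a, LY ^ a ≤ forms 0 a := by
      intro a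
      induction a with
      | zero => simpa using h0
      | succ a ih =>
        rw [pow_succ]
        refine Submodule.mul_le.2 fun u hu v hv => forms_mul (ih hu) (a' := 0) (b' := 1) ?_
        refine Submodule.span_le.2 ?_ hv
        rintro _ ⟨i, rfl⟩
        exact isWeightedHomogeneous_X ℂ _ _
    refine Submodule.mul_le.2 fun u hu v hv => ?_
    simpa using forms_mul (h1 a hu) (h2 b hv)

theorem LX_pow (a : ℕ) : LX ^ a =
    (homogeneousSubmodule (Fin 3) ℂ a).map (rename Sum.inl).toLinearMap := by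
  rw [LX, ← map_hom, rename_eq_aeval]
  rfl

theorem LY_pow (a : ℕ) : LY ^ a =
    (homogeneousSubmodule (Fin 4) ℂ a).map (rename Sum.inr).toLinearMap := by
  rw [LY, ← map_hom, rename_eq_aeval]
  rfl

theorem inl_mem {f : MvPolynomial (Fin 3) ℂ} {a : ℕ} (hf : f.IsHomogeneous a) :
    rename Sum.inl f ∈ forms a 0 := by
  rw [forms_eq, pow_zero, mul_one, LX_pow]
  exact ⟨f, hf, rfl⟩

theorem inr_mem {f : MvPolynomial (Fin 4) ℂ} {a : ℕ} (hf : f.IsHomogeneous a) :
    rename Sum.inr f ∈ forms 0 a := by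
  rw [forms_eq, pow_zero, one_mul, LY_pow]
  exact ⟨f, hf, rfl⟩

theorem slice_left {a b : ℕ} {F : MvPolynomial (Fin 3 ⊕ Fin 4) ℂ} (hF : F ∈ forms a b)
    (w : Fin 4 → ℂ) : ∃ f : MvPolynomial (Fin 3) ℂ, f.IsHomogeneous a ∧
      ∀ u, eval u f = eval (Sum.elim u w) F := by
  rw [forms_eq, LX_pow, LY_pow] at hF
  refine Submodule.mul_induction_on hF ?_ ?_
  · rintro _ ⟨f, hf, rfl⟩ _ ⟨g, -, rfl⟩
    exact ⟨C (eval w g) * f, IsHomogeneous.C_mul hf _, fun u => by
      simp [eval_rename, mul_comm]⟩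
  · rintro _ _ ⟨f, h1, h2⟩ ⟨g, h3, h4⟩
    exact ⟨f + g, h1.add h3, fun u => by simp [h2, h4]⟩

theorem slice_right {a b : ℕ} {F : MvPolynomial (Fin 3 ⊕ Fin 4) ℂ} (hF : F ∈ forms a b)
    (u : Fin 3 → ℂ) : ∃ g : MvPolynomial (Fin 4) ℂ, g.IsHomogeneous b ∧
      ∀ w, eval w g = eval (Sum.elim u w) F := by
  rw [forms_eq, LX_pow, LY_pow] at hF
  refine Submodule.mul_induction_on hF ?_ ?_
  · rintro _ ⟨f, -, rfl⟩ _ ⟨g, hg, rfl⟩
    exact ⟨C (eval u f) * g, IsHomogeneous.C_mul hg _, fun u => by simp [eval_rename]⟩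
  · rintro _ _ ⟨f, h1, h2⟩ ⟨g, h3, h4⟩
    exact ⟨f + g, h1.add h3, fun u => by simp [h2, h4]⟩

/-- value of a polynomial at the chosen coordinates of a point -/
noncomputable def ev (x : PP) (F : MvPolynomial (Fin 3 ⊕ Fin 4) ℂ) : ℂ :=
  eval (Sum.elim x.1.rep x.2.rep) F

theorem ev_mul (x : PP) (F G : MvPolynomial (Fin 3 ⊕ Fin 4) ℂ) :
    ev x (F * G) = ev x F * ev x G := map_mul _ _ _

theorem ev_inl (x : PP) (f : MvPolynomial (Fin 3) ℂ) :
    ev x (rename Sum.inl f) = eval x.1.rep f := by simp [ev, eval_rename]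

theorem ev_inr (x : PP) (f : MvPolynomial (Fin 4) ℂ) :
    ev x (rename Sum.inr f) = eval x.2.rep f := by simp [ev, eval_rename]

theorem basis : @TopologicalSpace.IsTopologicalBasis PP zariski
    (insert Set.univ {U | ∃ a b, ∃ F ∈ forms a b, U = {x | ev x F ≠ 0}}) := by
  refine @TopologicalSpace.isTopologicalBasis_of_subbasis_of_inter PP zariski _ rfl ?_
  rintro _ ⟨a, b, F, hF, rfl⟩ _ ⟨a', b', G, hG, rfl⟩
  refine ⟨_, _, F * G, forms_mul hF hG, ?_⟩
  ext x
  simp [ev_mul]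

theorem exists_form_open {U : Set PP} (hU : @IsOpen PP zariski U) {x : PP} (hx : x ∈ U) :
    ∃ a b, ∃ F ∈ forms a b, ev x F ≠ 0 ∧ ∀ y, ev y F ≠ 0 → y ∈ U := by
  let _ := zariski
  obtain ⟨_, rfl | ⟨a, b, F, hF, rfl⟩, h1, h2⟩ := basis.exists_subset_of_mem_open hx hU
  · exact ⟨0, 0, 1, isWeightedHomogeneous_one ℂ _, by simp [ev], fun y _ => h2 trivial⟩
  · exact ⟨a, b, F, hF, h1, h2⟩

theorem open_form {a b : ℕ} {F : MvPolynomial (Fin 3 ⊕ Fin 4) ℂ} (hF : F ∈ forms a b) :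
    @IsOpen PP zariski {x | ev x F ≠ 0} :=
  TopologicalSpace.isOpen_generateFrom_of_mem ⟨a, b, F, hF, rfl⟩

theorem closed_form {a b : ℕ} {F : MvPolynomial (Fin 3 ⊕ Fin 4) ℂ} (hF : F ∈ forms a b) :
    @IsClosed PP zariski {x | ev x F = 0} :=
  @IsClosed.mk PP zariski _ (open_form hF)

theorem closed_prod {f : MvPolynomial (Fin 3) ℂ} {g : MvPolynomial (Fin 4) ℂ} {a b : ℕ}
    (hf : f.IsHomogeneous a) (hg : g.IsHomogeneous b) :
    @IsClosed PP zariski (hyp f ×ˢ hyp g) := by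
  let _ := zariski
  have := (closed_form (inl_mem hf)).inter (closed_form (inr_mem hg))
  simp only [ev_inl, ev_inr] at this
  exact this

theorem irr_prod {f : MvPolynomial (Fin 3) ℂ} {g : MvPolynomial (Fin 4) ℂ} {a b : ℕ}
    (hf : f.IsHomogeneous a) (hg : g.IsHomogeneous b) (hfi : Irreducible f) (hgi : Irreducible g) :
    @IsIrreducible PP zariski (hyp f ×ˢ hyp g) := by
  refine ⟨(hyp_nonempty hfi hf).prod (hyp_nonempty hgi hg), ?_⟩
  rintro U U' hU hU' ⟨x, hx, hxU⟩ ⟨y, hy, hyU⟩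
  obtain ⟨_, _, F, hF, h1, h2⟩ := exists_form_open hU hxU
  obtain ⟨_, _, G, hG, h3, h4⟩ := exists_form_open hU' hyU
  obtain ⟨u, hu1, hu2⟩ := slice_left hF x.2.rep
  obtain ⟨u', hu1', hu2'⟩ := slice_left hG y.2.rep
  obtain ⟨z, hz, h5, h6⟩ : ∃ z ∈ hyp f, eval z.rep u ≠ 0 ∧ eval z.rep u' ≠ 0 := by
    by_contra h
    rcases hyp_prime hfi hf hu1 hu1' (fun z hz => by
      by_contra h'
      exact h ⟨z, hz, not_or.1 h'⟩) with h | h
    · exact h1 ((hu2 _).symm.trans (h _ hx.1))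
    · exact h3 ((hu2' _).symm.trans (h _ hy.1))
  obtain ⟨v, hv1, hv2⟩ := slice_right hF z.rep
  obtain ⟨v', hv1', hv2'⟩ := slice_right hG z.rep
  obtain ⟨w, hw, h7, h8⟩ : ∃ w ∈ hyp g, eval w.rep v ≠ 0 ∧ eval w.rep v' ≠ 0 := by
    by_contra h
    rcases hyp_prime hgi hg hv1 hv1' (fun z hz => by
      by_contra h'
      exact h ⟨z, hz, not_or.1 h'⟩) with h | h
    · exact h5 ((hu2 _).trans ((hv2 _).symm.trans (h _ hx.2)))
    · exact h6 ((hu2' _).trans ((hv2' _).symm.trans (h _ hy.2)))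
  exact ⟨(z, w), ⟨hz, hw⟩, h2 _ fun h => h7 ((hv2 _).trans h), h4 _ fun h => h8 ((hv2' _).trans h)⟩

/-- first coordinates -/
noncomputable def xs (V : Set PP) (i : Fin 3) : V → ℂ := fun v => v.1.1.rep i

/-- second coordinates -/
noncomputable def ys (V : Set PP) (i : Fin 4) : V → ℂ := fun v => v.1.2.rep i

/-- span of the first coordinates -/
noncomputable def Lx (V : Set PP) : Submodule ℂ (V → ℂ) := Submodule.span ℂ (Set.range (xs V))

/-- span of the second coordinates -/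
noncomputable def Ly (V : Set PP) : Submodule ℂ (V → ℂ) := Submodule.span ℂ (Set.range (ys V))

instance (V : Set PP) : FiniteDimensional ℂ (Lx V) :=
  FiniteDimensional.span_of_finite ℂ (Set.finite_range _)

instance (V : Set PP) : FiniteDimensional ℂ (Ly V) :=
  FiniteDimensional.span_of_finite ℂ (Set.finite_range _)

theorem map_forms (V : Set PP) (a b : ℕ) : (forms a b).map
    (aeval fun i (v : V) => Sum.elim v.1.1.rep v.1.2.rep i).toLinearMap = Lx V ^ a * Ly V ^ b := by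
  rw [forms_eq, Submodule.map_mul, Submodule.map_pow, Submodule.map_pow, LX, LY, Lx, Ly,
    Submodule.map_span, Submodule.map_span, ← Set.range_comp, ← Set.range_comp]
  congr 4
  · funext i
    simp
    rfl
  · funext i
    simp
    rfl

theorem hilb_eq (V : Set PP) (a b : ℕ) :
    hilb V a b = finrank ℂ (Lx V ^ a * Ly V ^ b : Submodule ℂ _) := by
  rw [hilb, map_forms]

theorem mem_bi {V : Set PP} {a b : ℕ} {u : V → ℂ} :
    u ∈ Lx V ^ a * Ly V ^ b ↔ ∃ F ∈ forms a b, ∀ v : V, u v = ev v.1 F := by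
  rw [← map_forms]
  have h : ∀ F (v : V), (aeval fun i (v : V) => Sum.elim v.1.1.rep v.1.2.rep i).toLinearMap F v =
      ev v.1 F := fun F v => aeval_fun (fun i (v : V) => Sum.elim v.1.1.rep v.1.2.rep i) F v
  constructor
  · rintro ⟨F, hF, rfl⟩
    exact ⟨F, hF, h F⟩
  · rintro ⟨F, hF, h'⟩
    refine ⟨F, hF, funext fun v => ?_⟩
    rw [h, h']

theorem dom_of_irr {V : Set PP} (h : @IsIrreducible PP zariski V) : Dom (Lx V) (Ly V) := by
  intro a b a' b' u hu v hv h0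
  obtain ⟨F, hF, h1⟩ := mem_bi.1 hu
  obtain ⟨G, hG, h2⟩ := mem_bi.1 hv
  by_contra hc
  obtain ⟨x, hx⟩ := Function.ne_iff.1 (not_or.1 hc).1
  obtain ⟨y, hy⟩ := Function.ne_iff.1 (not_or.1 hc).2
  obtain ⟨z, h3, h4, h5⟩ := h.2 _ _ (open_form hF) (open_form hG) ⟨x, x.2, by rwa [h1] at hx⟩
    ⟨y, y.2, by rwa [h2] at hy⟩
  have := congrFun h0 ⟨z, h3⟩
  rw [Pi.mul_apply, h1, h2] at this
  exact mul_ne_zero h4 h5 this

theorem hilb_sub {V Y : Set PP} (hVY : V ⊆ Y) (hY : @IsIrreducible PP zariski Y) {u v : ℕ}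
    {F : MvPolynomial (Fin 3 ⊕ Fin 4) ℂ} (hF : F ∈ forms u v) (h1 : ∀ x ∈ V, ev x F = 0)
    {y : PP} (hy : y ∈ Y) (h2 : ev y F ≠ 0) (a b : ℕ) :
    hilb V (u + a) (v + b) + hilb Y a b ≤ hilb Y (u + a) (v + b) := by
  let ρ : (Y → ℂ) →ₗ[ℂ] (V → ℂ) := LinearMap.funLeft ℂ ℂ (Set.inclusion hVY)
  have h3 : (Lx Y ^ (u + a) * Ly Y ^ (v + b)).map ρ = Lx V ^ (u + a) * Ly V ^ (v + b) := by
    ext w
    constructor
    · rintro ⟨w', hw', rfl⟩
      obtain ⟨G, hG, h4⟩ := mem_bi.1 hw'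
      exact mem_bi.2 ⟨G, hG, fun x => h4 _⟩
    · intro hw
      obtain ⟨G, hG, h4⟩ := mem_bi.1 hw
      refine ⟨fun x => ev x.1 G, mem_bi.2 ⟨G, hG, fun _ => rfl⟩, funext fun x => ?_⟩
      rw [h4]
      rfl
  rw [hilb_eq, hilb_eq, hilb_eq, ← rank_nullity ρ (Lx Y ^ (u + a) * Ly Y ^ (v + b)), h3]
  have h4 : (fun x : Y => ev x.1 F) ∈ Lx Y ^ u * Ly Y ^ v := mem_bi.2 ⟨F, hF, fun _ => rfl⟩
  refine Nat.add_le_add_left (finrank_le_of_mul (fun x : Y => ev x.1 F)
    (fun w hw => Submodule.mem_inf.2 ⟨mul_mem_bi h4 hw,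
      LinearMap.mem_ker.2 (_root_.funext fun x => ?_)⟩) fun w hw h0 =>
      (dom_of_irr hY _ _ _ _ _ h4 _ hw h0).resolve_left fun h => h2 (congrFun h ⟨y, hy⟩)) _
  simp [ρ, LinearMap.funLeft_apply, h1 x x.2]

/-- precomposition as an algebra map -/
def pre {T Z : Type} (p : T → Z) : (Z → ℂ) →ₐ[ℂ] (T → ℂ) where
  toFun f := f ∘ p
  map_one' := rfl
  map_mul' _ _ := rfl
  map_zero' := rfl
  map_add' _ _ := rfl
  commutes' _ := rfl

theorem finrank_pre {T Z W : Type} (p : T → Z) (q : T → W) (h : ∀ z w, ∃ t, p t = z ∧ q t = w)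
    (M : Submodule ℂ (Z → ℂ)) (N : Submodule ℂ (W → ℂ)) [FiniteDimensional ℂ M]
    [FiniteDimensional ℂ N] :
    finrank ℂ (M.map (pre p).toLinearMap * N.map (pre q).toLinearMap : Submodule ℂ _) =
      finrank ℂ M * finrank ℂ N := by
  refine le_antisymm ((finrank_mul_le _ _).trans
    (Nat.mul_le_mul (Submodule.finrank_map_le _ _) (Submodule.finrank_map_le _ _))) ?_
  let B := finBasis ℂ M
  let C := finBasis ℂ N
  have : LinearIndependent ℂ fun s : Fin (finrank ℂ M) × Fin (finrank ℂ N) =>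
      (⟨pre p (B s.1).1 * pre q (C s.2).1,
        Submodule.mul_mem_mul ⟨_, (B s.1).2, rfl⟩ ⟨_, (C s.2).2, rfl⟩⟩ :
        (M.map (pre p).toLinearMap * N.map (pre q).toLinearMap : Submodule ℂ _)) := by
    rw [Fintype.linearIndependent_iff]
    intro c hc
    have h1 : ∀ z w, ∑ i, (∑ j, c (i, j) * (C j).1 w) * (B i).1 z = 0 := by
      intro z w
      obtain ⟨t, rfl, rfl⟩ := h z w
      have := congrFun (congrArg Subtype.val hc) t
      simp only [AddSubmonoidClass.coe_finsetSum, SetLike.val_smul, Finset.sum_apply,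
        Pi.smul_apply, Pi.mul_apply, smul_eq_mul, ZeroMemClass.coe_zero, Pi.zero_apply,
        Fintype.sum_prod_type] at this
      rw [← this]
      refine Finset.sum_congr rfl fun i _ => ?_
      rw [Finset.sum_mul]
      refine Finset.sum_congr rfl fun j _ => ?_
      show _ = c (i, j) * ((B i).1 (p t) * (C j).1 (q t))
      ring
    have h2 : ∀ w i, ∑ j, c (i, j) * (C j).1 w = 0 := fun w =>
      Fintype.linearIndependent_iff.1 B.linearIndependent _ (Subtype.ext (funext fun z => by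
        simpa using h1 z w))
    exact fun s => Fintype.linearIndependent_iff.1 C.linearIndependent (fun j => c (s.1, j))
      (Subtype.ext (funext fun w => by simpa using h2 w s.1)) s.2
  simpa using this.fintype_card_le_finrank

theorem hilb_prod (Z : Set (Projectivization ℂ (Fin 3 → ℂ)))
    (W : Set (Projectivization ℂ (Fin 4 → ℂ))) (a b : ℕ) : hilb (Z ×ˢ W) a b =
      finrank ℂ (Submodule.span ℂ (Set.range (crd Z)) ^ a : Submodule ℂ _) *
        finrank ℂ (Submodule.span ℂ (Set.range (crd W)) ^ b : Submodule ℂ _) := by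
  have : FiniteDimensional ℂ (Submodule.span ℂ (Set.range (crd Z))) :=
    FiniteDimensional.span_of_finite ℂ (Set.finite_range _)
  have : FiniteDimensional ℂ (Submodule.span ℂ (Set.range (crd W))) :=
    FiniteDimensional.span_of_finite ℂ (Set.finite_range _)
  rw [← finrank_pre (T := (Z ×ˢ W : Set PP)) (fun t => ⟨t.1.1, t.2.1⟩) (fun t => ⟨t.1.2, t.2.2⟩)
    (fun z w => ⟨⟨(z.1, w.1), z.2, w.2⟩, rfl, rfl⟩), hilb_eq, Submodule.map_pow, Submodule.map_pow,
    Submodule.map_span, Submodule.map_span, ← Set.range_comp, ← Set.range_comp]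
  rfl

theorem cast_h3 (n : ℕ) : (finrank ℂ (homogeneousSubmodule (Fin 3) ℂ n) : ℚ) =
    (n + 1) * (n + 2) / 2 := by
  rw [finrank_hom, Fintype.card_fin, show 3 + n - 1 = n + 2 by omega, Nat.choose_symm_add,
    Nat.cast_choose_two]
  push_cast
  ring

theorem cast_h4 (n : ℕ) : (finrank ℂ (homogeneousSubmodule (Fin 4) ℂ n) : ℚ) =
    (n + 1) * (n + 2) * (n + 3) / 6 := by
  rw [finrank_hom, Fintype.card_fin, show 4 + n - 1 = n + 3 by omega, Nat.choose_symm_add]
  have := congrArg (Nat.cast : ℕ → ℚ) (Nat.descFactorial_eq_factorial_mul_choose (n + 3) 3)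
  simp [Nat.descFactorial, Nat.factorial] at this
  linarith

/-- Hilbert polynomial of a product of a plane curve and a space surface -/
def HY (d e a b : ℚ) : ℚ := ((a + 1) * (a + 2) / 2 - (a - d + 1) * (a - d + 2) / 2) *
  ((b + 1) * (b + 2) * (b + 3) / 6 - (b - e + 1) * (b - e + 2) * (b - e + 3) / 6)

theorem hilb_hyp {f : MvPolynomial (Fin 3) ℂ} {g : MvPolynomial (Fin 4) ℂ} {d e : ℕ}
    (hf : f.IsHomogeneous d) (hg : g.IsHomogeneous e) (hfi : Irreducible f) (hgi : Irreducible g)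
    {a b : ℕ} (ha : d ≤ a) (hb : e ≤ b) : (hilb (hyp f ×ˢ hyp g) a b : ℚ) = HY d e a b := by
  obtain ⟨a, rfl⟩ := Nat.exists_eq_add_of_le ha
  obtain ⟨b, rfl⟩ := Nat.exists_eq_add_of_le hb
  have h1 := congrArg (Nat.cast : ℕ → ℚ) (finrank_hyp hfi hf a)
  have h2 := congrArg (Nat.cast : ℕ → ℚ) (finrank_hyp hgi hg b)
  rw [Nat.cast_add, cast_h3, cast_h3] at h1
  rw [Nat.cast_add, cast_h4, cast_h4] at h2
  rw [hilb_prod, Nat.cast_mul, eq_sub_of_add_eq h1, eq_sub_of_add_eq h2, HY]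
  push_cast
  ring

theorem threefold_hyp {f : MvPolynomial (Fin 3) ℂ} {g : MvPolynomial (Fin 4) ℂ} {d e : ℕ}
    (hf : f.IsHomogeneous d) (hg : g.IsHomogeneous e) (hfi : Irreducible f)
    (hgi : Irreducible g) : IsThreefold (hyp f ×ˢ hyp g) ![0, d * e, 0, 0] := by
  have hd := irr_pos hfi hf
  have he := irr_pos hgi hg
  refine ⟨closed_prod hf hg, irr_prod hf hg hfi hgi, fun h => ?_,
    C ((d : ℚ) * (2 * e - e ^ 2 / 2)) * (X 0 * X 1) +
    C ((d : ℚ) * (e ^ 3 - 6 * e ^ 2 + 11 * e) / 6) * X 0 +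
    C (-(d : ℚ) * (d - 3) / 2 * (e / 2)) * (X 1 * X 1) +
    C (-(d : ℚ) * (d - 3) / 2 * (2 * e - e ^ 2 / 2)) * X 1 +
    C (-(d : ℚ) * (d - 3) / 2 * (e ^ 3 - 6 * e ^ 2 + 11 * e) / 6), ?_, ?_⟩
  · have : (d : ℤ) * e = 0 := congrFun h 1
    have : (0 : ℤ) < d * e := by positivity
    omega
  · have h2 : ∀ (c : ℚ) (i j : Fin 2), (C c * (X i * X j)).totalDegree ≤ 2 := fun c i j =>
      (((isHomogeneous_X ℚ i).mul (isHomogeneous_X ℚ j)).C_mul c).totalDegree_le
    have h1 : ∀ (c : ℚ) (i : Fin 2), (C c * X i).totalDegree ≤ 2 := fun c i =>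
      (isHomogeneous_C_mul_X c i).totalDegree_le.trans (by omega)
    refine (totalDegree_add _ _).trans (max_le ((totalDegree_add _ _).trans (max_le
      ((totalDegree_add _ _).trans (max_le ((totalDegree_add _ _).trans (max_le (h2 _ _ _)
      (h1 _ _))) (h2 _ _ _))) (h1 _ _))) (by rw [totalDegree_C]; omega))
  · filter_upwards [eventually_ge_atTop (d, e)] with n hn
    rw [hilb_hyp hf hg hfi hgi hn.1 hn.2, HY]
    simp [Fin.sum_univ_four, Nat.factorial]
    ring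

end Pool.Agent.Lib.MP_b7b517_ag
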