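import Pool.Agent.Lib.MP_b7b517_ag.Struct

/-!
The mobility count of multiples of the product of the hyperplane classes.
-/

namespace Pool.Agent.Lib.MP_b7b517_ag

open Module MvPolynomial Filter
open scoped ENNReal

theorem choose3 (d : ℕ) : (((Fintype.card (Fin 3) + d - 1).choose d : ℕ) : ℚ) =
    (d + 1) * (d + 2) / 2 := by rw [← finrank_hom, cast_h3]

theorem choose4 (d : ℕ) : (((Fintype.card (Fin 4) + d - 1).choose d : ℕ) : ℚ) =
    (d + 1) * (d + 2) * (d + 3) / 6 := by rw [← finrank_hom, cast_h4]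

theorem numeric {k d d' ml m : ℕ} (hd : 1 ≤ d) (hd' : 1 ≤ d')
    (h1 : k < (Fintype.card (Fin 3) + d - 1).choose d)
    (h2 : k < (Fintype.card (Fin 4) + d' - 1).choose d') (h3 : d * d' ≤ ml) (h4 : ml ≤ m) :
    (k : ℝ) ≤ 4 * ml * (m : ℝ) ^ (1 / 5 : ℝ) := by
  have e1 : k ≤ 3 * d ^ 2 := by
    have h5 : (k : ℚ) < _ := (Nat.cast_lt.2 h1).trans_eq (choose3 d)
    have h6 : (1 : ℚ) ≤ d := by exact_mod_cast hd
    exact_mod_cast (by nlinarith : (k : ℚ) ≤ 3 * d ^ 2)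
  have e2 : k ≤ 4 * d' ^ 3 := by
    have h5 : (k : ℚ) < _ := (Nat.cast_lt.2 h2).trans_eq (choose4 d')
    have h6 : (1 : ℚ) ≤ d' := by exact_mod_cast hd'
    have h7 : (d' : ℚ) ≤ d' ^ 2 := by nlinarith
    have h8 : (d' : ℚ) ^ 2 ≤ d' ^ 3 := by nlinarith
    exact_mod_cast (by nlinarith : (k : ℚ) ≤ 4 * d' ^ 3)
  have e3 : k ^ 5 ≤ 4 ^ 5 * ml ^ 5 * m :=
    calc k ^ 5 = k ^ 3 * k ^ 2 := by ring
      _ ≤ (3 * d ^ 2) ^ 3 * (4 * d' ^ 3) ^ 2 := by gcongr
      _ = 432 * (d * d') ^ 5 * (d * d') := by ring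
      _ ≤ 4 ^ 5 * ml ^ 5 * m := by gcongr; norm_num; exact h3.trans h4
  refine le_of_pow_le_pow_left₀ (n := 5) (by norm_num) (by positivity) ?_
  have e4 : ((m : ℝ) ^ (1 / 5 : ℝ)) ^ 5 = m := by
    rw [← Real.rpow_natCast, ← Real.rpow_mul (by positivity)]
    norm_num
  rw [mul_pow, mul_pow, e4]
  exact_mod_cast e3

theorem mc_le (m : ℕ) :
    mc (m • ![0, 1, 0, 0]) ≤ ENNReal.ofReal (4 * (m : ℝ) * (m : ℝ) ^ (1 / 5 : ℝ)) := by
  classical
  refine iSup₂_le fun b ⟨P, hP, h⟩ => ?_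
  have g0 : ∀ᶠ v in gen (Fin b × (Fin 3 ⊕ Fin 4)), eval v P ≠ 0 := ⟨P, hP, fun _ h => h⟩
  have g1 : ∀ᶠ v in gen (Fin b × (Fin 3 ⊕ Fin 4)), ∀ s, v s ≠ 0 :=
    eventually_all.2 fun s => ⟨X s, X_ne_zero s, fun v hv => by simpa using hv⟩
  have g2 : ∀ᶠ v in gen (Fin b × (Fin 3 ⊕ Fin 4)), ∀ (d : Fin (m + 1)) (T : Finset (Fin b)),
      (Fintype.card (Fin 3) + d - 1).choose d ≤ T.card → ∀ f : MvPolynomial (Fin 3) ℂ,
        f.IsHomogeneous d → (∀ j ∈ T, eval (fun i => v (j, Sum.inl i)) f = 0) → f = 0 :=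
    eventually_all.2 fun d => eventually_all.2 fun T => eventually_imp_distrib_left.2 fun h =>
      gen_indep d T Sum.inl Sum.inl_injective h
  have g3 : ∀ᶠ v in gen (Fin b × (Fin 3 ⊕ Fin 4)), ∀ (d : Fin (m + 1)) (T : Finset (Fin b)),
      (Fintype.card (Fin 4) + d - 1).choose d ≤ T.card → ∀ f : MvPolynomial (Fin 4) ℂ,
        f.IsHomogeneous d → (∀ j ∈ T, eval (fun i => v (j, Sum.inr i)) f = 0) → f = 0 :=
    eventually_all.2 fun d => eventually_all.2 fun T => eventually_imp_distrib_left.2 fun h =>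
      gen_indep d T Sum.inr Sum.inr_injective h
  obtain ⟨v, h0, h1, h2, h3⟩ := (g0.and (g1.and (g2.and g3))).exists
  have hu : ∀ j, (fun i => v (j, Sum.inl i)) ≠ 0 := fun j h => h1 _ (congrFun h 0)
  have hw : ∀ j, (fun i => v (j, Sum.inr i)) ≠ 0 := fun j h => h1 _ (congrFun h 0)
  obtain ⟨n, V, e, hV, hs, hc⟩ := h (fun j i => v (j, Sum.inl i)) (fun j i => v (j, Sum.inr i))
    hu hw (by
      refine (congrArg (fun v => eval v P ≠ 0) (funext ?_)).mp h0
      rintro ⟨j, i | i⟩ <;> rfl)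
  have hz : ∀ i : Fin 4, i ≠ 1 → (∀ l, 0 ≤ e l i) → ∀ l, e l i = 0 := by
    intro i hi hl l
    have := congrFun hs i
    rw [Finset.sum_apply] at this
    refine (Finset.sum_eq_zero_iff_of_nonneg fun l _ => hl l).1 (this.trans ?_) l
      (Finset.mem_univ _)
    fin_cases i <;> simp at hi ⊢
  have e0 := hz 0 (by decide) fun l => (hV l).nonneg.1
  have e3 := hz 3 (by decide) fun l => (hV l).nonneg.2.1
  have e2 := hz 2 (by decide) fun l => (hV l).nonneg.2.2 (e3 l)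
  choose f g d d' hf hg hfi hgi hle hsub using fun l => (hV l).struct (e0 l) (e2 l) (e3 l)
  have e1 : ∀ l, 0 ≤ e l 1 := fun l => le_trans (by positivity) (hle l)
  have hsum : ∑ l, (e l 1).toNat = m := by
    have := congrFun hs 1
    rw [Finset.sum_apply] at this
    have h4 : ((∑ l, (e l 1).toNat : ℕ) : ℤ) = m := by
      push_cast
      simp only [Int.toNat_of_nonneg (e1 _), this]
      simp
    exact_mod_cast h4
  choose τ hτ using fun j => Set.mem_iUnion.1 (hc ⟨j, rfl⟩)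
  have hb : b = ∑ l, (Finset.univ.filter fun j => τ j = l).card := by
    rw [← Finset.card_eq_sum_card_fiberwise (s := Finset.univ) fun _ _ => Finset.mem_univ _]
    simp
  have key : ∀ l, ((Finset.univ.filter fun j => τ j = l).card : ℝ) ≤
      4 * (e l 1).toNat * (m : ℝ) ^ (1 / 5 : ℝ) := by
    intro l
    have h4 := irr_pos (hfi l) (hf l)
    have h5 := irr_pos (hgi l) (hg l)
    have h6 : d l * d' l ≤ (e l 1).toNat := by
      have := hle l
      have := e1 l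
      zify
      rwa [Int.toNat_of_nonneg this]
    have h7 : (e l 1).toNat ≤ m :=
      hsum ▸ Finset.single_le_sum (f := fun l => (e l 1).toNat) (fun _ _ => Nat.zero_le _)
        (Finset.mem_univ l)
    refine numeric h4 h5 (not_le.1 fun h8 => (hfi l).ne_zero ?_)
      (not_le.1 fun h8 => (hgi l).ne_zero ?_) h6 h7
    · refine h2 ⟨d l, by nlinarith⟩ _ h8 _ (hf l) fun j hj => ?_
      obtain rfl : τ j = l := by simpa using hj
      exact (eval_mk (hf _) (hu j)).1 (hsub _ (hτ j)).1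
    · refine h3 ⟨d' l, by nlinarith⟩ _ h8 _ (hg l) fun j hj => ?_
      obtain rfl : τ j = l := by simpa using hj
      exact (eval_mk (hg _) (hw j)).1 (hsub _ (hτ j)).2
  rw [← ENNReal.ofReal_natCast]
  refine ENNReal.ofReal_le_ofReal ?_
  calc (b : ℝ) = ∑ l, ((Finset.univ.filter fun j => τ j = l).card : ℝ) := by exact_mod_cast hb
    _ ≤ _ := Finset.sum_le_sum fun l _ => key l
    _ = _ := by rw [← Finset.sum_mul, ← Finset.mul_sum, ← Nat.cast_sum, hsum]

theorem le_mc (t : ℕ) (ht : 1 ≤ t) : ((t ^ 6 : ℕ) : ℝ≥0∞) ≤ mc ((4 * t ^ 5) • ![0, 1, 0, 0]) := by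
  refine le_iSup₂_of_le (t ^ 6) ⟨1, one_ne_zero, fun u v hu hv _ => ?_⟩ le_rfl
  have h0 : (1 : ℚ) ≤ t := by exact_mod_cast ht
  obtain ⟨f, hf1, hf2, hf3⟩ := exists_form u (2 * t ^ 3) (by
    rw [← Nat.cast_lt (α := ℚ), choose3]
    simp only [Fintype.card_fin]
    push_cast
    nlinarith [pow_pos (zero_lt_one.trans_le h0) 3, pow_pos (zero_lt_one.trans_le h0) 6])
  obtain ⟨g, hg1, hg2, hg3⟩ := exists_form v (2 * t ^ 2) (by
    rw [← Nat.cast_lt (α := ℚ), choose4]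
    simp only [Fintype.card_fin]
    push_cast
    nlinarith [pow_pos (zero_lt_one.trans_le h0) 2, pow_pos (zero_lt_one.trans_le h0) 4,
      pow_pos (zero_lt_one.trans_le h0) 6])
  obtain ⟨k, F, d, h1, h2, c, h3, h4, rfl⟩ := exists_factors hf1 hf2
  obtain ⟨k', G, d', h1', h2', c', h3', h4', rfl⟩ := exists_factors hg1 hg2
  refine ⟨k * k', fun l => hyp (F (finProdFinEquiv.symm l).1) ×ˢ hyp (G (finProdFinEquiv.symm l).2),
    fun l => ![0, d (finProdFinEquiv.symm l).1 * d' (finProdFinEquiv.symm l).2, 0, 0],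
    fun l => threefold_hyp (h1 _).2 (h1' _).2 (h1 _).1 (h1' _).1, ?_, ?_⟩
  · rw [finProdFinEquiv.symm.sum_comp fun s : Fin k × Fin k' =>
      (![0, d s.1 * d' s.2, 0, 0] : Fin 4 → ℤ)]
    funext i
    rw [Finset.sum_apply]
    fin_cases i
    · simp
    · have : ∑ s : Fin k × Fin k', (d s.1 * d' s.2 : ℤ) = 4 * t ^ 5 := by
        simp only [Fintype.sum_prod_type]
        rw [← Finset.sum_mul_sum, ← Nat.cast_sum, ← Nat.cast_sum, h2, h2']
        push_cast
        ring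
      simpa using this
    · simp
    · simp
  · rintro _ ⟨j, rfl⟩
    have h5 := hf3 j
    have h6 := hg3 j
    rw [map_mul, map_prod, mul_eq_zero, Finset.prod_eq_zero_iff] at h5 h6
    obtain ⟨i, -, hi⟩ := h5.resolve_left (hom_zero_eval h3 h4 _)
    obtain ⟨i', -, hi'⟩ := h6.resolve_left (hom_zero_eval h3' h4' _)
    refine Set.mem_iUnion.2 ⟨finProdFinEquiv (i, i'), ?_⟩
    rw [Equiv.symm_apply_apply]
    exact ⟨(eval_mk (h1 i).2 (hu j)).2 hi, (eval_mk (h1' i').2 (hv j)).2 hi'⟩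

theorem main : IsGreatest {r : ℝ | 0 < limsup
    (fun m : ℕ => mc (m • ![0, 1, 0, 0]) / (m : ℝ≥0∞) ^ r) atTop} (6 / 5) := by
  constructor
  · refine lt_of_lt_of_le (b := ENNReal.ofReal (1 / 16)) (by simp) ?_
    refine le_limsup_of_frequently_le' (frequently_atTop.2 fun M => ?_)
    refine ⟨4 * (M + 1) ^ 5, by nlinarith [Nat.le_self_pow (n := 5) (by norm_num) (M + 1)], ?_⟩
    generalize ht : M + 1 = t
    have h1 : 1 ≤ t := by omega
    refine ENNReal.le_div_iff_mul_le (Or.inl ?_) (Or.inl ?_) |>.2 (le_trans ?_ (le_mc t h1))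
    · exact (ENNReal.rpow_pos (by positivity) (ENNReal.natCast_ne_top _)).ne'
    · exact ENNReal.rpow_ne_top_of_nonneg (by norm_num) (ENNReal.natCast_ne_top _)
    · rw [← ENNReal.ofReal_natCast, ← ENNReal.ofReal_natCast,
        ENNReal.ofReal_rpow_of_nonneg (by positivity) (by norm_num),
        ← ENNReal.ofReal_mul (by norm_num)]
      refine ENNReal.ofReal_le_ofReal ?_
      push_cast
      rw [Real.mul_rpow (by norm_num) (by positivity), ← Real.rpow_natCast (t : ℝ) 5,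
        ← Real.rpow_mul (by positivity)]
      have h2 : (4 : ℝ) ^ (6 / 5 : ℝ) ≤ 4 ^ (2 : ℝ) :=
        Real.rpow_le_rpow_of_exponent_le (by norm_num) (by norm_num)
      have h3 : (t : ℝ) ^ (((5 : ℕ) : ℝ) * (6 / 5)) = t ^ 6 := by
        rw [← Real.rpow_natCast]
        norm_num
      rw [h3]
      norm_num at h2
      nlinarith [pow_nonneg (Nat.cast_nonneg (α := ℝ) t) 6]
  · intro r hr
    by_contra h
    push Not at h
    have hr' : (0 : ℝ≥0∞) < limsup
      (fun m : ℕ => mc (m • ![0, 1, 0, 0]) / (m : ℝ≥0∞) ^ r) atTop := hr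
    refine hr'.ne' (Tendsto.limsup_eq ?_)
    have h1 : Tendsto (fun m : ℕ => ENNReal.ofReal (4 * (m : ℝ) ^ (-(r - 6 / 5)))) atTop
        (nhds 0) := by
      have := ENNReal.tendsto_ofReal (((tendsto_rpow_neg_atTop (sub_pos.2 h)).comp
        tendsto_natCast_atTop_atTop).const_mul 4)
      simpa using this
    refine tendsto_of_tendsto_of_tendsto_of_le_of_le' tendsto_const_nhds h1
      (Eventually.of_forall fun _ => zero_le) ?_
    filter_upwards [eventually_ge_atTop 1] with m hm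
    have h2 : (0 : ℝ) < m := by exact_mod_cast hm
    refine ENNReal.div_le_of_le_mul ((mc_le m).trans (le_of_eq ?_))
    rw [← ENNReal.ofReal_natCast, ENNReal.ofReal_rpow_of_pos h2,
      ← ENNReal.ofReal_mul (by positivity), mul_assoc, mul_assoc, ← Real.rpow_add h2,
      ← Real.rpow_one_add' h2.le (by norm_num)]
    congr 3
    ring

end Pool.Agent.Lib.MP_b7b517_ag
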