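import Pool.Agent.Lib.MP_b7b517_ag.Geo

/-!
Threefolds of class a multiple of the product of the two hyperplane classes are products.
-/

namespace Pool.Agent.Lib.MP_b7b517_ag

open Module MvPolynomial Filter

theorem cubic (φ : ℚ → ℚ) (α : ℚ) (hφ : ∀ t, φ t = α * t ^ 3 + ((φ 1 + φ (-1)) / 2 - φ 0) * t ^ 2 +
    ((φ 1 - φ (-1)) / 2 - α) * t + φ 0) (h : ∀ᶠ n : ℕ in atTop, 0 ≤ φ n) : 0 ≤ α := by
  generalize (φ 1 + φ (-1)) / 2 - φ 0 = β at hφ
  generalize (φ 1 - φ (-1)) / 2 - α = γ at hφ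
  generalize φ 0 = δ at hφ
  by_contra hα
  push Not at hα
  obtain ⟨M, hM⟩ := exists_nat_gt ((|β| + |γ| + |δ|) / -α)
  obtain ⟨n, h1, h2, h3⟩ := (h.and ((eventually_ge_atTop M).and (eventually_ge_atTop 1))).exists
  rw [div_lt_iff₀ (by linarith)] at hM
  have h4 : (M : ℚ) ≤ n := by exact_mod_cast h2
  have h5 : (1 : ℚ) ≤ n := by exact_mod_cast h3
  rw [hφ] at h1
  have h6 : (n : ℚ) ≤ n ^ 2 := by nlinarith
  have h7 : β * (n : ℚ) ^ 2 ≤ |β| * n ^ 2 := mul_le_mul_of_nonneg_right (le_abs_self _) (by positivity)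
  have h8 : γ * (n : ℚ) ≤ |γ| * n ^ 2 :=
    mul_le_mul (le_abs_self _) h6 (by positivity) (abs_nonneg _)
  have h9 : δ ≤ |δ| * (n : ℚ) ^ 2 := by nlinarith [le_abs_self δ, abs_nonneg δ]
  have h10 : |β| + |γ| + |δ| < n * -α := by nlinarith
  have h11 := mul_lt_mul_of_pos_right h10 (show (0 : ℚ) < n ^ 2 by positivity)
  nlinarith

theorem expand2 (q : MvPolynomial (Fin 2) ℚ) (hq : q.totalDegree ≤ 2) :
    ∃ c : Fin 6 → ℚ, ∀ a b : ℚ, eval ![a, b] q =
      c 0 * a ^ 2 + c 1 * a * b + c 2 * b ^ 2 + c 3 * a + c 4 * b + c 5 := by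
  rw [q.as_sum]
  refine Finset.sum_induction _ (fun q : MvPolynomial (Fin 2) ℚ => ∃ c : Fin 6 → ℚ, ∀ a b : ℚ,
    eval ![a, b] q = c 0 * a ^ 2 + c 1 * a * b + c 2 * b ^ 2 + c 3 * a + c 4 * b + c 5) ?_
    ⟨0, by simp⟩ fun d hd => ?_
  · rintro p p' ⟨c, h⟩ ⟨c', h'⟩
    exact ⟨c + c', fun a b => by simp only [map_add, h, h', Pi.add_apply]; ring⟩
  · have h1 := (le_totalDegree hd).trans hq
    rw [Finsupp.sum_fintype _ _ (by simp), Fin.sum_univ_two] at h1
    simp only [eval_monomial, Finsupp.prod_fintype _ _ (fun _ => pow_zero _), Fin.prod_univ_two,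
      Matrix.cons_val_zero, Matrix.cons_val_one]
    generalize coeff d q = r
    generalize d 0 = i at h1
    generalize d 1 = j at h1
    have hi : i ≤ 2 := by omega
    have hj : j ≤ 2 := by omega
    interval_cases i <;> interval_cases j
    · exact ⟨![0, 0, 0, 0, 0, r], fun a b => by simp⟩
    · exact ⟨![0, 0, 0, 0, r, 0], fun a b => by simp⟩
    · exact ⟨![0, 0, r, 0, 0, 0], fun a b => by simp⟩
    · exact ⟨![0, 0, 0, r, 0, 0], fun a b => by simp⟩
    · exact ⟨![0, r, 0, 0, 0, 0], fun a b => by simp [mul_assoc]⟩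
    · omega
    · exact ⟨![r, 0, 0, 0, 0, 0], fun a b => by simp⟩
    · omega
    · omega

/-- explicit Hilbert polynomial -/
def HP (e : Fin 4 → ℤ) (c : Fin 6 → ℚ) (a b : ℚ) : ℚ :=
  e 0 * b ^ 3 / 6 + e 1 * a * b ^ 2 / 2 + e 2 * a ^ 2 * b / 2 + e 3 * a ^ 3 / 6 +
    (c 0 * a ^ 2 + c 1 * a * b + c 2 * b ^ 2 + c 3 * a + c 4 * b + c 5)

theorem IsThreefold.hp {V : Set PP} {e : Fin 4 → ℤ} (h : IsThreefold V e) :
    ∃ (c : Fin 6 → ℚ) (N : ℕ), ∀ a b : ℕ, N ≤ a → N ≤ b → (hilb V a b : ℚ) = HP e c a b := by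
  obtain ⟨-, -, -, q, h1, h2⟩ := h
  obtain ⟨c, hc⟩ := expand2 q h1
  obtain ⟨N, hN⟩ := eventually_atTop.1 h2
  refine ⟨c, max N.1 N.2, fun a b ha hb => ?_⟩
  rw [hN (a, b) ⟨(le_max_left _ _).trans ha, (le_max_right _ _).trans hb⟩, hc, HP]
  simp [Fin.sum_univ_four, Nat.factorial]

theorem IsThreefold.nonneg {V : Set PP} {e : Fin 4 → ℤ} (h : IsThreefold V e) :
    0 ≤ e 0 ∧ 0 ≤ e 3 ∧ (e 3 = 0 → 0 ≤ e 2) := by
  obtain ⟨c, N, h⟩ := h.hp
  refine ⟨?_, ?_, fun h3 => ?_⟩
  · have := cubic (fun t => HP e c N t) (e 0 / 6) (fun t => by simp only [HP]; ring)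
      (by filter_upwards [eventually_ge_atTop N] with n hn; rw [← h N n le_rfl hn]; positivity)
    exact_mod_cast (by linarith : (0 : ℚ) ≤ e 0)
  · have := cubic (fun t => HP e c t N) (e 3 / 6) (fun t => by simp only [HP]; ring)
      (by filter_upwards [eventually_ge_atTop N] with n hn; rw [← h n N hn le_rfl]; positivity)
    exact_mod_cast (by linarith : (0 : ℚ) ≤ e 3)
  · have := cubic (fun t => t ^ 2 * (e 2 * t / 2 + c 0)) (e 2 / 2) (fun t => by ring) (by
      filter_upwards [eventually_ge_atTop N] with b hb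
      have := cubic (fun t => t * HP e c t b) (e 2 * b / 2 + c 0)
        (fun t => by simp only [HP, h3]; push_cast; ring)
        (by filter_upwards [eventually_ge_atTop N] with n hn; rw [← h n b hn hb]; positivity)
      positivity)
    exact_mod_cast (by linarith : (0 : ℚ) ≤ e 2)

theorem irr_factor {σ : Type} {V : Set PP} (hV : @IsIrreducible PP zariski V)
    (π : PP → σ → ℂ) (hπ : ∀ (f : MvPolynomial σ ℂ) n, f.IsHomogeneous n →
      @IsClosed PP zariski {x | eval (π x) f = 0}) {f : MvPolynomial σ ℂ} {n : ℕ}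
    (hf : f.IsHomogeneous n) (h0 : f ≠ 0) (h : ∀ x ∈ V, eval (π x) f = 0) :
    ∃ (g : MvPolynomial σ ℂ) (d : ℕ), Irreducible g ∧ g.IsHomogeneous d ∧
      ∀ x ∈ V, eval (π x) g = 0 := by
  classical
  let _ := zariski
  obtain ⟨k, g, d, h1, -, c, h2, h3, rfl⟩ := exists_factors hf h0
  obtain ⟨z, h4, h5⟩ := isIrreducible_iff_sUnion_isClosed.1 hV
    (Finset.univ.image fun i => {x | eval (π x) (g i) = 0}) (by
      intro z hz
      obtain ⟨i, -, rfl⟩ := Finset.mem_image.1 hz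
      exact hπ _ _ (h1 i).2) (by
      intro x hx
      have := h x hx
      rw [map_mul, map_prod, mul_eq_zero, Finset.prod_eq_zero_iff] at this
      obtain ⟨i, -, hi⟩ := this.resolve_left (hom_zero_eval h2 h3 _)
      exact ⟨_, Finset.mem_coe.2 (Finset.mem_image.2 ⟨i, Finset.mem_univ _, rfl⟩), hi⟩)
  obtain ⟨i, -, rfl⟩ := Finset.mem_image.1 h4
  exact ⟨g i, d i, (h1 i).1, (h1 i).2, h5⟩

theorem finrank_free {σ T : Type} [Fintype σ] (x : σ → T → ℂ)
    (h : ∀ (f : MvPolynomial σ ℂ) n, f.IsHomogeneous n → (∀ t, eval (fun i => x i t) f = 0) → f = 0)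
    (n : ℕ) : finrank ℂ (Submodule.span ℂ (Set.range x) ^ n : Submodule ℂ _) =
      finrank ℂ (homogeneousSubmodule σ ℂ n) := by
  rw [← map_hom, ← rank_nullity (aeval x).toLinearMap (homogeneousSubmodule σ ℂ n)]
  have : homogeneousSubmodule σ ℂ n ⊓ LinearMap.ker (aeval x).toLinearMap = ⊥ := by
    rw [eq_bot_iff]
    rintro f ⟨h1, h2⟩
    have h2 : aeval x f = 0 := h2
    exact h f n h1 fun t => (aeval_fun x f t).symm.trans (congrFun h2 t)
  rw [this, finrank_bot, add_zero]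

theorem IsThreefold.struct {V : Set PP} {e : Fin 4 → ℤ} (hV : IsThreefold V e) (h0 : e 0 = 0)
    (h2 : e 2 = 0) (h3 : e 3 = 0) : ∃ (f : MvPolynomial (Fin 3) ℂ) (g : MvPolynomial (Fin 4) ℂ)
      (d d' : ℕ), f.IsHomogeneous d ∧ g.IsHomogeneous d' ∧ Irreducible f ∧ Irreducible g ∧
        (d * d' : ℤ) ≤ e 1 ∧ V ⊆ hyp f ×ˢ hyp g := by
  obtain ⟨c, N, h⟩ := hV.hp
  obtain ⟨hcl, hirr, hne, -⟩ := hV
  have hd := dom_of_irr hirr
  obtain ⟨p, hp⟩ := hirr.1
  have h1 : (0 : ℚ) < e 1 := by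
    have h4 := cubic (fun t => HP e c t t) (e 1 / 2)
      (fun t => by simp only [HP, h0, h2, h3]; push_cast; ring)
      (by filter_upwards [eventually_ge_atTop N] with n hn; rw [← h n n hn hn]; positivity)
    refine lt_of_le_of_ne (by linarith) fun h5 => hne (funext fun i => ?_)
    have h6 : e 1 = 0 := by exact_mod_cast h5.symm
    fin_cases i <;> assumption
  obtain ⟨g, n, hg1, hg2, hg3⟩ : ∃ (g : MvPolynomial (Fin 4) ℂ) (n : ℕ), g.IsHomogeneous n ∧
      g ≠ 0 ∧ ∀ x ∈ V, eval x.2.rep g = 0 := by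
    by_contra hc
    have h4 := finrank_free (ys V) fun f n hf h => by
      by_contra h5
      exact hc ⟨f, n, hf, h5, fun x hx => h ⟨x, hx⟩⟩
    obtain ⟨i, hi⟩ := Function.ne_iff.1 p.1.rep_nonzero
    have h5 : xs V i ^ N ∈ Lx V ^ N :=
      Submodule.pow_mem_pow _ (Submodule.subset_span (Set.mem_range_self i)) _
    have h6 : ∀ b, finrank ℂ (Ly V ^ b : Submodule ℂ _) ≤ hilb V N b := fun b => by
      rw [hilb_eq]
      exact finrank_le_of_mul (xs V i ^ N) (fun u hu => Submodule.mul_mem_mul h5 hu)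
        fun u hu h7 => (hd _ _ _ _ _ (mem_left h5) _ (mem_right hu) h7).resolve_left fun h8 =>
          pow_ne_zero N hi (congrFun h8 ⟨p, hp⟩)
    have := cubic (fun t => HP e c N t - (t + 1) * (t + 2) * (t + 3) / 6) (-1 / 6)
      (fun t => by simp only [HP, h0, h2, h3]; push_cast; ring) (by
        filter_upwards [eventually_ge_atTop N] with n hn
        rw [← h N n le_rfl hn, ← cast_h4, ← h4, sub_nonneg]
        exact_mod_cast h6 n)
    linarith
  obtain ⟨f, m, hf1, hf2, hf3⟩ : ∃ (f : MvPolynomial (Fin 3) ℂ) (n : ℕ), f.IsHomogeneous n ∧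
      f ≠ 0 ∧ ∀ x ∈ V, eval x.1.rep f = 0 := by
    by_contra hc
    have h4 : ∀ n, finrank ℂ (Lx V ^ n : Submodule ℂ _) = _ :=
      finrank_free (xs V) fun f n hf h => by
        by_contra h5
        exact hc ⟨f, n, hf, h5, fun x hx => h ⟨x, hx⟩⟩
    obtain ⟨j, hj⟩ := Function.ne_iff.1 p.2.rep_nonzero
    rcases growth (Lx V) (ys V) hd j (fun h => hj (congrFun h ⟨p, hp⟩)) with h5 | ⟨δ, ρ, h5⟩
    · have := cubic (fun t => t ^ 2 * (c 0 - (t + 1) / 2)) (-1 / 2) (fun t => by ring) (by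
        filter_upwards [eventually_ge_atTop N] with b hb
        have := cubic (fun t => t * (HP e c t b - (b + 1) * ((t + 1) * (t + 2) / 2)))
          (c 0 - (b + 1) / 2) (fun t => by simp only [HP, h0, h2, h3]; push_cast; ring) (by
            filter_upwards [eventually_ge_atTop N] with n hn
            refine mul_nonneg (by positivity) ?_
            rw [← h n b hn hb, ← cast_h3, ← h4, sub_nonneg, hilb_eq]
            exact_mod_cast h5 n b)
        positivity)
      linarith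
    · have := cubic (fun t => (t + δ * t + 1) * (t + δ * t + 2) / 2 * ρ - HP e c t t) (-(e 1 / 2))
        (fun t => by simp only [HP, h0, h2, h3]; push_cast; ring) (by
          filter_upwards [eventually_ge_atTop N] with n hn
          have h6 := cast_h3 (n + δ * n)
          push_cast at h6
          rw [← h n n hn hn, ← h6, ← h4, sub_nonneg, hilb_eq]
          exact_mod_cast h5 n n)
      linarith
  obtain ⟨f, d, hfi, hf, hfV⟩ := irr_factor hirr (fun x => x.1.rep) (fun f n hf => by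
    simpa only [ev_inl] using closed_form (inl_mem hf)) hf1 hf2 hf3
  obtain ⟨g, d', hgi, hg, hgV⟩ := irr_factor hirr (fun x => x.2.rep) (fun f n hf => by
    simpa only [ev_inr] using closed_form (inr_mem hf)) hg1 hg2 hg3
  have hsub : V ⊆ hyp f ×ˢ hyp g := fun x hx => ⟨hfV x hx, hgV x hx⟩
  refine ⟨f, g, d, d', hf, hg, hfi, hgi, ?_, hsub⟩
  by_cases heq : hyp f ×ˢ hyp g ⊆ V
  · obtain rfl := hsub.antisymm heq
    have := cubic (fun t => HP e c t t - HY d d' t t) (e 1 / 2 - d * d' / 2)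
      (fun t => by simp only [HP, HY, h0, h2, h3]; push_cast; ring) (by
        filter_upwards [eventually_ge_atTop N, eventually_ge_atTop d, eventually_ge_atTop d']
          with n hn hn1 hn2
        rw [← h n n hn hn, hilb_hyp hf hg hfi hgi hn1 hn2, sub_self])
    exact_mod_cast (by linarith : (d * d' : ℚ) ≤ e 1)
  · obtain ⟨y, hy1, hy2⟩ := Set.not_subset.1 heq
    obtain ⟨u, v, F, hF, h4, h5⟩ := exists_form_open (@IsClosed.isOpen_compl PP zariski V hcl) hy2
    have h6 := hilb_sub hsub (irr_prod hf hg hfi hgi) hF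
      (fun x hx => by_contra fun h => h5 x h hx) hy1 h4
    have := cubic (fun t => HY d d' (u + t) (v + t) - HY d d' t t - HP e c (u + t) (v + t))
      (-(e 1 / 2)) (fun t => by simp only [HP, HY, h0, h2, h3]; push_cast; ring) (by
        filter_upwards [eventually_ge_atTop N, eventually_ge_atTop d, eventually_ge_atTop d']
          with n hn hn1 hn2
        have h7 := h (u + n) (v + n) (by omega) (by omega)
        have h8 := hilb_hyp hf hg hfi hgi (a := u + n) (b := v + n) (by omega) (by omega)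
        push_cast at h7 h8
        rw [← h7, ← h8, ← hilb_hyp hf hg hfi hgi hn1 hn2]
        have h9 : (hilb V (u + n) (v + n) + hilb (hyp f ×ˢ hyp g) n n : ℚ) ≤
          hilb (hyp f ×ˢ hyp g) (u + n) (v + n) := by exact_mod_cast h6 n n
        linarith)
    linarith

end Pool.Agent.Lib.MP_b7b517_ag
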